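import Pool.Agent.Helper73.INS.Inter

/-!
Every infinite set of the model has an infinite chain of subsets.
-/

namespace Pool.Agent.Helper73.INS

open Pool.Agent.Helper73.Sym

set_option synthInstance.maxSize 2000

/-- the colexicographic order -/
def cle (s t : Finset ℚ) : Prop := toColex s ≤ toColex t

theorem cle_total (s t : Finset ℚ) : cle s t ∨ cle t s := le_total _ _
theorem cle_trans {s t u : Finset ℚ} (h : cle s t) (h' : cle t u) : cle s u := le_trans h h'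
theorem cle_antisymm {s t : Finset ℚ} (h : cle s t) (h' : cle t s) : s = t :=
  toColex.injective (le_antisymm h h')
theorem cle_of_sub {s t : Finset ℚ} (h : s ⊆ t) : cle s t :=
  Finset.Colex.toColex_le_toColex_of_subset h
theorem cle_image {s t : Finset ℚ} (σ : ℚ ≃o ℚ) (h : cle s t) : cle (s.image σ) (t.image σ) :=
  (Finset.Colex.toColex_image_le_toColex_image σ.strictMono).2 h

/-- the members of the value of `x` (and of its translates) with a support below `w` -/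
def chN (x : Nm Pc) (w : Finset ℚ) : Nm Pc :=
  .mk {a : (Gp × x.Ix) × Pc // ∃ w' : Finset ℚ, cle w' w ∧ Lc w' (a.1.1 • x.ch a.1.2) a.2}
    (fun a => a.1.1.1 • x.ch a.1.1.2) (fun a => a.1.2)

theorem smul_chN (g : Gp) (x : Nm Pc) (w : Finset ℚ) (p : Pc) :
    Eqv (g • chN x w) (chN x (w.image g.σ)) p := by
  rw [eqv_iff]
  constructor
  · rintro ⟨⟨⟨h, i⟩, s⟩, w', h1, h2⟩ q _ hq
    refine ⟨q, le_rfl, ⟨⟨⟨g * h, i⟩, g • s⟩, w'.image g.σ, cle_image _ h1, ?_⟩, hq, ?_⟩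
    · show Lc _ ((g * h) • x.ch i) (g • s)
      rw [mul_smul]
      exact h2.smul g
    · show Eqv (g • h • x.ch i) ((g * h) • x.ch i) q
      rw [mul_smul]
      exact Eqv.refl _ _
  · rintro ⟨⟨⟨h, i⟩, s⟩, w', h1, h2⟩ q _ hq
    have e : (w.image g.σ).image (g⁻¹).σ = w := by
      rw [Finset.image_image]
      have : (g⁻¹.σ : ℚ → ℚ) ∘ g.σ = id := by funext b; exact inv_σ_σ g b
      rw [this, Finset.image_id]
    refine ⟨q, le_rfl, ⟨⟨⟨g⁻¹ * h, i⟩, g⁻¹ • s⟩, w'.image (g⁻¹).σ, ?_, ?_⟩, ?_, ?_⟩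
    · have := cle_image (g⁻¹).σ h1
      rwa [e] at this
    · show Lc _ ((g⁻¹ * h) • x.ch i) (g⁻¹ • s)
      rw [mul_smul]
      exact h2.smul g⁻¹
    · show q ≤ g • (g⁻¹ • s)
      rw [smul_inv_smul]; exact hq
    · show Eqv (g • (g⁻¹ * h) • x.ch i) (h • x.ch i) q
      rw [mul_smul, smul_inv_smul]
      exact Eqv.refl _ _

theorem image_of_fx {w : Finset ℚ} {g : Gp} (h : Fx w g) : w.image g.σ = w := by
  have : ∀ b ∈ w, g.σ b = b := fun b hb => (h b hb).1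
  ext b
  rw [Finset.mem_image]
  constructor
  · rintro ⟨c, hc, rfl⟩
    rw [this c hc]; exact hc
  · intro hb
    exact ⟨b, hb, this b hb⟩

theorem hs_chN {x : Nm Pc} (hx : HS Gp x) (w : Finset ℚ) : HS Gp (chN x w) := by
  refine HS.intro (symm_iff_sp.2 ⟨w, fun g hg p => ?_⟩) fun a => (hx.ch _).smul _
  have := smul_chN g x w p
  rwa [image_of_fx hg] at this

/-- the name of the chain of all `chN x w` -/
def CN (x : Nm Pc) : Nm Pc := uN (fun w : Finset ℚ => chN x w)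

theorem hs_CN {x : Nm Pc} (hx : HS Gp x) : HS Gp (CN x) := by
  refine HS.intro (symm_iff_sp.2 ⟨∅, sp_uN fun g _ w p => ?_⟩) fun w => hs_chN hx _
  exact ⟨w.image g.σ, smul_chN g x w p⟩

/-! ### the names for the elements with a given support -/

/-- indices of the elements of the value of `x` with support `w` -/
def Kx (w : Finset ℚ) (x : Nm Pc) : Type := {a : x.Ix × Pc // Lc w (x.ch a.1) a.2}

/-- the name with support `w` -/
noncomputable def tx (w : Finset ℚ) (x : Nm Pc) (k : Kx w x) : Nm Pc := k.2.choose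

theorem hs_tx {w : Finset ℚ} {x : Nm Pc} (k : Kx w x) : HS Gp (tx w x k) := k.2.choose_spec.1
theorem sp_tx {w : Finset ℚ} {x : Nm Pc} (k : Kx w x) : Sp w (tx w x k) :=
  k.2.choose_spec.2.1
theorem eqv_tx {w : Finset ℚ} {x : Nm Pc} (k : Kx w x) :
    Eqv (x.ch k.1.1) (tx w x k) k.1.2 := k.2.choose_spec.2.2

/-- the order of the indices -/
def Kle {w : Finset ℚ} {x : Nm Pc} (j k : Kx w x) : Prop := j = k ∨ WellOrderingRel j k

theorem Kle.trans {w : Finset ℚ} {x : Nm Pc} {i j k : Kx w x} (h : Kle i j) (h' : Kle j k) :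
    Kle i k := by
  rcases h with rfl | h
  · exact h'
  · rcases h' with rfl | h'
    · exact Or.inr h
    · exact Or.inr (IsTrans.trans _ _ _ h h')

theorem Kle.total {w : Finset ℚ} {x : Nm Pc} (j k : Kx w x) : Kle j k ∨ Kle k j := by
  by_cases h : j = k
  · exact Or.inl (Or.inl h)
  by_cases h1 : WellOrderingRel j k
  · exact Or.inl (Or.inr h1)
  by_cases h2 : WellOrderingRel k j
  · exact Or.inr (Or.inr h2)
  · exact absurd (Std.Trichotomous.trichotomous (r := WellOrderingRel) j k h1 h2) h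

/-- the set of the first elements -/
noncomputable def inN (w : Finset ℚ) (x : Nm Pc) (k : Kx w x) : Nm Pc :=
  uN (fun j : {j : Kx w x // Kle j k} => tx w x j.1)

/-- the chain of these sets -/
noncomputable def cwN (w : Finset ℚ) (x : Nm Pc) : Nm Pc := uN (fun k => inN w x k)

theorem sp_inN {w : Finset ℚ} {x : Nm Pc} (k : Kx w x) : Sp w (inN w x k) :=
  sp_uN fun g hg j p => ⟨j, sp_tx j.1 g hg p⟩

theorem hs_inN {w : Finset ℚ} {x : Nm Pc} (k : Kx w x) : HS Gp (inN w x k) :=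
  HS.intro (symm_iff_sp.2 ⟨w, sp_inN k⟩) fun j => hs_tx j.1

theorem hs_cwN (w : Finset ℚ) (x : Nm Pc) : HS Gp (cwN w x) :=
  HS.intro (symm_iff_sp.2 ⟨w, sp_uN fun g hg k p => ⟨k, sp_inN k g hg p⟩⟩) fun k => hs_inN k

theorem mm_inN {w : Finset ℚ} {x y : Nm Pc} {k : Kx w x} {p : Pc} (h : Mm y (inN w x k) p) :
    ∀ q ≤ p, ∃ r ≤ q, ∃ j, Kle j k ∧ Eqv y (tx w x j) r := by
  intro q hq
  obtain ⟨r, hr, ⟨j, hj⟩, _, h1⟩ := h q hq
  exact ⟨r, hr, j, hj, h1⟩

theorem mm_inN_of {w : Finset ℚ} {x y : Nm Pc} {k : Kx w x} {p : Pc}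
    (h : ∀ q ≤ p, ∃ r ≤ q, ∃ j, Kle j k ∧ Eqv y (tx w x j) r) : Mm y (inN w x k) p := by
  intro q hq
  obtain ⟨r, hr, j, hj, h1⟩ := h q hq
  exact ⟨r, hr, ⟨j, hj⟩, le_top, h1⟩

/-! ### in the generic model -/

section

variable {D : Gen Pc Gp}

theorem exists_child_ev {x y : Nm Pc} (hx : D.Has x) (hy : D.Has y) (h : D.ev y ∈ D.ev x) :
    ∃ n, ∃ i : x.Ix, D.g n ≤ x.wt i ∧ Eqv y (x.ch i) (D.g n) := by
  obtain ⟨k, hk, hk'⟩ := hx.ev
  obtain ⟨l, rfl⟩ := hy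
  rw [Gen.ev_U, hk'] at h
  exact D.exists_child hk h

/-- supports of the value of `y` -/
def Su (D : Gen Pc Gp) (y : Nm Pc) : Set (Finset ℚ) := {w | ∃ n, Lc w y (D.g n)}

theorem su_mono {y : Nm Pc} {w : Finset ℚ} {n m : ℕ} (h : Lc w y (D.g n)) (hm : n ≤ m) :
    Lc w y (D.g m) := h.mono subset_rfl (D.anti hm)

theorem exists_spt {y : Nm Pc} (hy : HS Gp y) : ∃ w ∈ Su D y, ∀ w' ∈ Su D y, w ⊆ w' := by
  classical
  obtain ⟨w1, hw1⟩ := symm_iff_sp.1 hy.symm'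
  have hne : ∃ k, ∃ w ∈ Su D y, w.card = k := ⟨_, w1, ⟨0, y, hy, hw1, Eqv.refl _ _⟩, rfl⟩
  obtain ⟨w, hw, hc⟩ := Nat.find_spec hne
  refine ⟨w, hw, fun w' hw' => ?_⟩
  have h1 : w ∩ w' ∈ Su D y := by
    obtain ⟨n, hn⟩ := hw
    obtain ⟨m, hm⟩ := hw'
    exact ⟨max n m, lc_inter (su_mono hn (le_max_left _ _)) (su_mono hm (le_max_right _ _))⟩
  have h2 : w.card ≤ (w ∩ w').card := by
    rw [hc]
    exact Nat.find_min' hne ⟨_, h1, rfl⟩
  have h3 := Finset.eq_of_subset_of_card_le Finset.inter_subset_left h2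
  rw [← h3]
  exact Finset.inter_subset_right

/-- `w` is the least support of the value of `y` -/
def IsSpt (D : Gen Pc Gp) (y : Nm Pc) (w : Finset ℚ) : Prop :=
  w ∈ Su D y ∧ ∀ w' ∈ Su D y, w ⊆ w'

theorem mem_chN {x y : Nm Pc} (hx : D.Has x) (hy : D.Has y) (hyx : D.ev y ∈ D.ev x)
    {w : Finset ℚ} (hch : D.Has (chN x w)) {w0 : Finset ℚ} (hw0 : IsSpt D y w0) :
    D.ev y ∈ D.ev (chN x w) ↔ cle w0 w := by
  constructor
  · intro h
    obtain ⟨n, ⟨⟨⟨g, i⟩, s⟩, w', h1, h2⟩, h3, h4⟩ := exists_child_ev hch hy h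
    have h5 : w' ∈ Su D y := ⟨n, (h2.mono subset_rfl h3).congr h4.symm⟩
    exact cle_trans (cle_of_sub (hw0.2 w' h5)) h1
  · intro h
    obtain ⟨n, i, h1, h2⟩ := exists_child_ev hx hy hyx
    obtain ⟨m, hm⟩ := hw0.1
    have e1 : Eqv y (x.ch i) (D.g (max n m)) := h2.mono (D.anti (le_max_left _ _))
    have e2 : Lc w0 (x.ch i) (D.g (max n m)) := (su_mono hm (le_max_right _ _)).congr e1
    rw [Gen.ev_mem hy hch]
    refine ⟨max n m, ?_⟩
    have e3 : Lc w0 ((1 : Gp) • x.ch i) (D.g (max n m)) := by rw [one_smul]; exact e2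
    have e4 := Mm.child (chN x w) ⟨⟨⟨1, i⟩, D.g (max n m)⟩, w0, h, e3⟩ (p := D.g (max n m)) le_rfl
    have e5 : (chN x w).ch ⟨⟨⟨1, i⟩, D.g (max n m)⟩, w0, h, e3⟩ = x.ch i := one_smul _ _
    rw [e5] at e4
    exact Mm.congr_left e1.symm e4

/-- the formula: some member of `v 0` separates `v 1` and `v 2` -/
def fmS : Fml :=
  .ex (.and (.mem 0 1) (.or (.and (.mem 2 0) (.not (.mem 3 0)))
    (.and (.mem 3 0) (.not (.mem 2 0)))))

theorem sat_fmS {M : Type*} [Membership M M] (v : ℕ → M) :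
    Sat fmS v ↔ ∃ S : M, S ∈ v 0 ∧ ((v 1 ∈ S ∧ ¬ v 2 ∈ S) ∨ (v 2 ∈ S ∧ ¬ v 1 ∈ S)) := by
  simp [fmS]

/-- the valuation with given first three values -/
def val3 {α : Type*} (a b c : α) : ℕ → α
  | 0 => a
  | 1 => b
  | _ => c

theorem ev_val3 (a b c : Nm Pc) :
    (fun n => D.ev (val3 a b c n)) = val3 (D.ev a) (D.ev b) (D.ev c) := by
  funext n
  rcases n with _ | _ | n <;> rfl

theorem exists_sep_cw {w : Finset ℚ} {x y y' : Nm Pc} (hx : D.Has x) (hy : D.Has y)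
    (hy' : D.Has y') (hc : D.Has (cwN w x)) (hyx : D.ev y ∈ D.ev x) (_hyx' : D.ev y' ∈ D.ev x)
    (hw : w ∈ Su D y) (_hw' : w ∈ Su D y') (hne : D.ev y ≠ D.ev y') :
    ∃ S : D.M, S ∈ D.ev (cwN w x) ∧ ((D.ev y ∈ S ∧ ¬ D.ev y' ∈ S) ∨
      (D.ev y' ∈ S ∧ ¬ D.ev y ∈ S)) := by
  have hv : ∀ n, D.Has (val3 (cwN w x) y y' n) := by
    intro n
    rcases n with _ | _ | n
    · exact hc
    · exact hy
    · exact hy'
  have key : Sat fmS (fun n => D.ev (val3 (cwN w x) y y' n)) := by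
    rw [Gen.truth_ev fmS _ hv]
    -- the condition
    obtain ⟨n1, i, h1, h2⟩ := exists_child_ev hx hy hyx
    obtain ⟨n2, h3⟩ := hw
    obtain ⟨n3, h4⟩ : ∃ n, ∀ r ≤ D.g n, ¬ Eqv y y' r := by
      have : Sat (Fml.not (.eq 1 2)) (fun n => D.ev (val3 (cwN w x) y y' n)) := by
        rw [sat_not, sat_eq]
        exact hne
      rw [Gen.truth_ev _ _ hv] at this
      obtain ⟨n, hn⟩ := this
      exact ⟨n, fun r hr => hn r hr⟩
    obtain ⟨N, hN1, hN2, hN3⟩ : ∃ N, n1 ≤ N ∧ n2 ≤ N ∧ n3 ≤ N :=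
      ⟨max n1 (max n2 n3), le_max_left _ _, (le_max_left _ _).trans (le_max_right _ _),
        (le_max_right _ _).trans (le_max_right _ _)⟩
    refine ⟨N, frc_ex.2 fun q hq => ?_⟩
    -- the minimal index
    have hK : ∃ k : Kx w x, ∃ r ≤ q, Eqv y (tx w x k) r ∨ Eqv y' (tx w x k) r := by
      have e1 : Eqv y (x.ch i) q := h2.mono (hq.trans (D.anti hN1))
      have e2 : Lc w (x.ch i) q := (h3.mono subset_rfl (hq.trans (D.anti hN2))).congr e1
      refine ⟨⟨⟨i, q⟩, e2⟩, q, le_rfl, Or.inl (e1.trans (eqv_tx (w := w) ⟨⟨i, q⟩, e2⟩))⟩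
    obtain ⟨k, ⟨r, hr, hk⟩, hmin⟩ : ∃ k : Kx w x,
        (∃ r ≤ q, Eqv y (tx w x k) r ∨ Eqv y' (tx w x k) r) ∧
        ∀ j, WellOrderingRel j k → ¬ ∃ r ≤ q, Eqv y (tx w x j) r ∨ Eqv y' (tx w x j) r := by
      have hwf : WellFounded (WellOrderingRel (α := Kx w x)) := IsWellFounded.wf
      exact ⟨hwf.min {k | ∃ r ≤ q, Eqv y (tx w x k) r ∨ Eqv y' (tx w x k) r} hK,
        hwf.min_mem _ hK, fun j hj hc => hwf.not_lt_min _ hc hj⟩
    have hneq : ∀ s ≤ q, ¬ Eqv y y' s := fun s hs => h4 s (hs.trans (hq.trans (D.anti hN3)))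
    have hself : ∀ y'', Eqv y'' (tx w x k) r → Mm y'' (inN w x k) r := fun y'' h =>
      mm_inN_of fun q hq => ⟨q, le_rfl, k, Or.inl rfl, h.mono hq⟩
    have hC : Mm (inN w x k) (cwN w x) r := mm_uN _ k r
    refine ⟨r, hr, inN w x k, hs_inN k, ?_⟩
    rw [frc_and]
    refine ⟨hC, frc_or.2 fun s hs => ⟨s, le_rfl, ?_⟩⟩
    rcases hk with hk | hk
    · left
      rw [frc_and]
      refine ⟨(hself y hk).mono hs, fun t ht hm => ?_⟩
      obtain ⟨u, hu, j, hj, he⟩ := mm_inN hm t le_rfl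
      have hu' : u ≤ r := hu.trans (ht.trans hs)
      rcases hj with rfl | hj
      · exact hneq u (hu'.trans hr) ((hk.mono hu').trans (Eqv.symm he))
      · exact hmin j hj ⟨u, hu'.trans hr, Or.inr he⟩
    · right
      rw [frc_and]
      refine ⟨(hself y' hk).mono hs, fun t ht hm => ?_⟩
      obtain ⟨u, hu, j, hj, he⟩ := mm_inN hm t le_rfl
      have hu' : u ≤ r := hu.trans (ht.trans hs)
      rcases hj with rfl | hj
      · exact hneq u (hu'.trans hr) (Eqv.trans he (hk.mono hu').symm)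
      · exact hmin j hj ⟨u, hu'.trans hr, Or.inl he⟩
  rw [ev_val3, sat_fmS] at key
  exact key

theorem chain_cw {w : Finset ℚ} {x : Nm Pc} (hc : D.Has (cwN w x)) {S S' : D.M}
    (hS : S ∈ D.ev (cwN w x)) (hS' : S' ∈ D.ev (cwN w x)) : Sub S S' ∨ Sub S' S := by
  obtain ⟨s, hs, rfl⟩ := Gen.ev_surj S
  obtain ⟨s', hs', rfl⟩ := Gen.ev_surj S'
  obtain ⟨n, k, _, h1⟩ := exists_child_ev hc hs hS
  obtain ⟨n', k', _, h1'⟩ := exists_child_ev hc hs' hS'
  have key : ∀ {k k' : Kx w x} {s s' : Nm Pc} {n n' : ℕ}, D.Has s → D.Has s' → Kle k k' →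
      Eqv s (inN w x k) (D.g n) → Eqv s' (inN w x k') (D.g n') → Sub (D.ev s) (D.ev s') := by
    intro k k' s s' n n' hs hs' hkk h1 h2 z hz
    obtain ⟨y, hy, rfl⟩ := Gen.ev_surj z
    obtain ⟨m, hm⟩ := (Gen.ev_mem hy hs).1 hz
    rw [Gen.ev_mem hy hs']
    refine ⟨max m (max n n'), ?_⟩
    have e1 := hm.mono (D.anti (le_max_left m (max n n')))
    have e2 := h1.mono (D.anti ((le_max_left n n').trans (le_max_right m _)))
    have e3 := h2.mono (D.anti ((le_max_right n n').trans (le_max_right m _)))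
    refine Mm.congr_right e3.symm (mm_inN_of fun q hq => ?_)
    obtain ⟨r, hr, j, hj, he⟩ := mm_inN (Mm.congr_right e2 e1) q hq
    exact ⟨r, hr, j, hj.trans hkk, he⟩
  rcases Kle.total k k' with h | h
  · exact Or.inl (key hs hs' h h1 h1')
  · exact Or.inr (key hs' hs h h1' h1)

theorem exists_chain {x : Nm Pc} (hx : D.Has x) (hch : ∀ w, D.Has (chN x w))
    (hcn : D.Has (CN x)) (hcw : ∀ w, D.Has (cwN w x)) (hinf : ¬ IsFin (D.ev x)) :
    ∃ C : D.M, (∀ S, S ∈ C → Sub S (D.ev x)) ∧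
      (∀ S S', S ∈ C → S' ∈ C → Sub S S' ∨ Sub S' S) ∧ ¬ IsFin C := by
  classical
  rw [isFin_iff] at hinf
  by_cases hV : {w | ∃ y, D.Has y ∧ D.ev y ∈ D.ev x ∧ IsSpt D y w}.Finite
  · -- finitely many least supports
    have hU : {z | z ∈ D.ev x} ⊆ ⋃ w ∈ {w | ∃ y, D.Has y ∧ D.ev y ∈ D.ev x ∧ IsSpt D y w},
        {z | ∃ y, D.Has y ∧ z = D.ev y ∧ D.ev y ∈ D.ev x ∧ w ∈ Su D y} := by
      intro z hz
      obtain ⟨y, hy, rfl⟩ := Gen.ev_surj z
      obtain ⟨w, hw1, hw2⟩ := exists_spt (D := D) hy.hs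
      rw [Set.mem_iUnion₂]
      exact ⟨w, ⟨y, hy, hz, hw1, hw2⟩, y, hy, rfl, hz, hw1⟩
    obtain ⟨w, hw, hwi⟩ : ∃ w ∈ {w | ∃ y, D.Has y ∧ D.ev y ∈ D.ev x ∧ IsSpt D y w},
        ¬ {z | ∃ y, D.Has y ∧ z = D.ev y ∧ D.ev y ∈ D.ev x ∧ w ∈ Su D y}.Finite := by
      by_contra hc
      push Not at hc
      exact hinf ((hV.biUnion hc).subset hU)
    refine ⟨img (fun S => in2 (D.ev x) S) (D.ev (cwN w x)), ?_, ?_, ?_⟩
    · intro S hS z hz
      obtain ⟨S', _, rfl⟩ := (mem_img _ _ _).1 hS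
      exact ((mem_in2 _ _ _).1 hz).1
    · intro S S' hS hS'
      obtain ⟨T, hT, rfl⟩ := (mem_img _ _ _).1 hS
      obtain ⟨T', hT', rfl⟩ := (mem_img _ _ _).1 hS'
      rcases chain_cw (hcw w) hT hT' with h | h
      · left
        intro z hz
        rw [mem_in2] at hz ⊢
        exact ⟨hz.1, h z hz.2⟩
      · right
        intro z hz
        rw [mem_in2] at hz ⊢
        exact ⟨hz.1, h z hz.2⟩
    · intro hfin
      rw [isFin_iff] at hfin
      apply hwi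
      set C : D.M := img (fun S => in2 (D.ev x) S) (D.ev (cwN w x)) with hC
      refine Set.Finite.of_injOn (f := fun z : D.M => {S | S ∈ C ∧ z ∈ S})
        (t := 𝒫 {S | S ∈ C}) ?_ ?_ hfin.finite_subsets
      · intro z _ S hS
        exact hS.1
      · rintro z ⟨y, hy, rfl, hyx, hyw⟩ z' ⟨y', hy', rfl, hyx', hyw'⟩ heq
        by_contra hne
        obtain ⟨S, hS, h⟩ := exists_sep_cw hx hy hy' (hcw w) hyx hyx' hyw hyw' hne
        have hSC : in2 (D.ev x) S ∈ C := by rw [hC, mem_img]; exact ⟨S, hS, rfl⟩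
        have heq' : ∀ T : D.M, (T ∈ C ∧ D.ev y ∈ T) ↔ (T ∈ C ∧ D.ev y' ∈ T) := by
          intro T
          exact Set.ext_iff.1 heq T
        have h1 := heq' (in2 (D.ev x) S)
        simp only [mem_in2] at h1
        tauto
  · -- infinitely many least supports
    have hmC : ∀ S : D.M, S ∈ img (fun S => in2 (D.ev x) S) (D.ev (CN x)) ↔
        ∃ w, S = in2 (D.ev x) (D.ev (chN x w)) := by
      intro S
      rw [mem_img]
      constructor
      · rintro ⟨T, hT, rfl⟩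
        obtain ⟨w, rfl⟩ := (Gen.mem_ev_uN hcn hch T).1 hT
        exact ⟨w, rfl⟩
      · rintro ⟨w, rfl⟩
        exact ⟨_, (Gen.mem_ev_uN hcn hch _).2 ⟨w, rfl⟩, rfl⟩
    have hsub : ∀ w w', cle w w' →
        Sub (in2 (D.ev x) (D.ev (chN x w))) (in2 (D.ev x) (D.ev (chN x w'))) := by
      intro w w' hww z hz
      rw [mem_in2] at hz ⊢
      obtain ⟨y, hy, rfl⟩ := Gen.ev_surj z
      obtain ⟨w0, hw0⟩ := exists_spt (D := D) hy.hs
      refine ⟨hz.1, ?_⟩
      rw [mem_chN hx hy hz.1 (hch _) hw0]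
      exact cle_trans ((mem_chN hx hy hz.1 (hch _) hw0).1 hz.2) hww
    refine ⟨img (fun S => in2 (D.ev x) S) (D.ev (CN x)), ?_, ?_, ?_⟩
    · intro S hS z hz
      obtain ⟨w, rfl⟩ := (hmC S).1 hS
      exact ((mem_in2 _ _ _).1 hz).1
    · intro S S' hS hS'
      obtain ⟨w, rfl⟩ := (hmC S).1 hS
      obtain ⟨w', rfl⟩ := (hmC S').1 hS'
      rcases cle_total w w' with h | h
      · exact Or.inl (hsub _ _ h)
      · exact Or.inr (hsub _ _ h)
    · intro hfin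
      rw [isFin_iff] at hfin
      apply hV
      refine Set.Finite.of_injOn (f := fun w => in2 (D.ev x) (D.ev (chN x w))) ?_ ?_ hfin
      · intro w _
        exact (hmC _).2 ⟨w, rfl⟩
      · have key : ∀ w w', (∃ y, D.Has y ∧ D.ev y ∈ D.ev x ∧ IsSpt D y w) →
            in2 (D.ev x) (D.ev (chN x w)) = in2 (D.ev x) (D.ev (chN x w')) → cle w w' := by
          rintro w w' ⟨y, hy, hyx, hyw⟩ h
          have h1 : D.ev y ∈ in2 (D.ev x) (D.ev (chN x w)) := by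
            rw [mem_in2, mem_chN hx hy hyx (hch _) hyw]
            exact ⟨hyx, le_refl _⟩
          rw [h, mem_in2, mem_chN hx hy hyx (hch _) hyw] at h1
          exact h1.2
        intro w hw w' hw' h
        exact cle_antisymm (key w w' hw h) (key w' w hw' h.symm)

end

end Pool.Agent.Helper73.INS
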