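import Pool.Agent.Helper73.Sym.Cohen

/-!
The symmetric system for MP_2291ab_lc: blocks indexed by the rationals, every block consisting
of two halves, every half being a sequence of Cohen reals.
-/

namespace Pool.Agent.Helper73.INS

open Pool.Agent.Helper73.Sym

/-- inner coordinates of a block -/
abbrev Inn := Bool × ℕ

/-- the permutations of a block which preserve the partition in two halves -/
def InG : Subgroup (Equiv.Perm Inn) where
  carrier := {f | ∀ x y, (f x).1 = (f y).1 ↔ x.1 = y.1}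
  mul_mem' := by
    intro f g hf hg x y
    rw [Equiv.Perm.mul_apply, Equiv.Perm.mul_apply, hf, hg]
  one_mem' := fun x y => Iff.rfl
  inv_mem' := by
    intro f hf x y
    have := hf (f⁻¹ x) (f⁻¹ y)
    rw [← this]
    simp

/-- coordinates -/
@[ext] structure Crd where
  blk : ℚ
  inn : Inn

instance : Countable Crd := by
  have : Function.Injective (fun c : Crd => (c.blk, c.inn)) := by
    intro a b h
    have h1 := congrArg Prod.fst h
    have h2 := congrArg Prod.snd h
    ext1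
    · exact h1
    · exact h2
  exact this.countable

/-- the group: an automorphism of the rationals and a permutation for every block -/
@[ext] structure Gp where
  σ : ℚ ≃o ℚ
  π : ℚ → InG

instance : Group Gp where
  mul g h := ⟨g.σ * h.σ, fun b => g.π (h.σ b) * h.π b⟩
  one := ⟨1, fun _ => 1⟩
  inv g := ⟨g.σ⁻¹, fun b => (g.π (g.σ⁻¹ b))⁻¹⟩
  mul_assoc a b c := rfl
  one_mul a := by
    apply Gp.ext
    · exact one_mul _
    · funext b; exact one_mul _
  mul_one a := by
    apply Gp.ext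
    · exact mul_one _
    · funext b; exact mul_one _
  inv_mul_cancel a := by
    apply Gp.ext
    · exact inv_mul_cancel _
    · funext b
      show (a.π (a.σ⁻¹ (a.σ b)))⁻¹ * a.π b = 1
      have : a.σ⁻¹ (a.σ b) = b := RelIso.inv_apply_self _ _
      rw [this, inv_mul_cancel]

theorem mul_σ (g h : Gp) (b : ℚ) : (g * h).σ b = g.σ (h.σ b) := rfl
theorem mul_π (g h : Gp) (b : ℚ) : (g * h).π b = g.π (h.σ b) * h.π b := rfl
theorem inv_σ (g : Gp) : g⁻¹.σ = g.σ⁻¹ := rfl
theorem inv_σ_σ (g : Gp) (b : ℚ) : g⁻¹.σ (g.σ b) = b := RelIso.inv_apply_self _ _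
theorem σ_inv_σ (g : Gp) (b : ℚ) : g.σ (g⁻¹.σ b) = b := RelIso.apply_inv_self _ _

instance : MulAction Gp Crd where
  smul g c := ⟨g.σ c.blk, (g.π c.blk).1 c.inn⟩
  one_smul c := rfl
  mul_smul g h c := rfl

theorem smul_blk (g : Gp) (c : Crd) : (g • c).blk = g.σ c.blk := rfl
theorem smul_inn (g : Gp) (c : Crd) : (g • c).inn = (g.π c.blk).1 c.inn := rfl

/-- `g` fixes all the blocks in `w` -/
def Fx (w : Finset ℚ) (g : Gp) : Prop := ∀ b ∈ w, g.σ b = b ∧ g.π b = 1

theorem Fx.smul {w : Finset ℚ} {g : Gp} (h : Fx w g) {c : Crd} (hc : c.blk ∈ w) : g • c = c := by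
  ext1
  · exact (h _ hc).1
  · rw [smul_inn, (h _ hc).2]; rfl

theorem Fx.of_smul {w : Finset ℚ} {g : Gp} (h : ∀ c : Crd, c.blk ∈ w → g • c = c) : Fx w g := by
  intro b hb
  constructor
  · have := h ⟨b, (true, 0)⟩ hb
    exact congrArg Crd.blk this
  · apply Subtype.ext
    apply Equiv.ext
    intro x
    have := h ⟨b, x⟩ hb
    exact congrArg Crd.inn this

theorem Fx.inv {w : Finset ℚ} {g : Gp} (h : Fx w g) : Fx w g⁻¹ := by
  apply Fx.of_smul
  intro c hc
  rw [inv_smul_eq_iff, h.smul hc]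

theorem Fx.mul {w : Finset ℚ} {g h : Gp} (hg : Fx w g) (hh : Fx w h) : Fx w (g * h) := by
  apply Fx.of_smul
  intro c hc
  rw [mul_smul, hh.smul hc, hg.smul hc]

theorem Fx.mono {w w' : Finset ℚ} {g : Gp} (h : Fx w g) (hw : w' ⊆ w) : Fx w' g :=
  fun b hb => h b (hw hb)

instance : Spp Gp Crd where
  S := {A | ∃ w : Finset ℚ, ∀ c ∈ A, c.blk ∈ w}
  empty := ⟨∅, by simp⟩
  union := by
    rintro A B ⟨n, hn⟩ ⟨m, hm⟩
    refine ⟨n ∪ m, fun c hc => ?_⟩
    rcases hc with hc | hc
    · exact Finset.mem_union_left _ (hn c hc)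
    · exact Finset.mem_union_right _ (hm c hc)
  smul := by
    rintro g A ⟨n, hn⟩
    refine ⟨{c | c.blk ∈ n.image g.σ}, ⟨n.image g.σ, fun c hc => hc⟩, fun c hc => ?_⟩
    exact Finset.mem_image_of_mem _ (hn c hc)
  sing := fun c => ⟨{d | d.blk ∈ ({c.blk} : Finset ℚ)}, ⟨{c.blk}, fun d hd => hd⟩,
    Finset.mem_singleton_self _⟩

abbrev Pc := Coh Crd

/-- the name `x` has support `w` -/
def Sp (w : Finset ℚ) (x : Nm Pc) : Prop := ∀ g : Gp, Fx w g → ∀ p, Eqv (g • x) x p

theorem symm_iff_sp {x : Nm Pc} : Symm Gp x ↔ ∃ w, Sp w x := by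
  rw [symm_iff]
  constructor
  · rintro ⟨A, ⟨w, hw⟩, h⟩
    exact ⟨w, fun g hg => h g fun c hc => hg.smul (hw c hc)⟩
  · rintro ⟨w, h⟩
    exact ⟨{c | c.blk ∈ w}, ⟨w, fun c hc => hc⟩, fun g hg => h g (Fx.of_smul hg)⟩

theorem Sp.mono {w w' : Finset ℚ} {x : Nm Pc} (h : Sp w x) (hw : w ⊆ w') : Sp w' x :=
  fun g hg => h g (hg.mono hw)

theorem Sp.smul {w : Finset ℚ} {x : Nm Pc} (h : Sp w x) (g : Gp) :
    Sp (w.image g.σ) (g • x) := by
  intro k hk p
  have h1 : Fx w (g⁻¹ * k * g) := by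
    apply Fx.of_smul
    intro c hc
    rw [mul_smul, mul_smul, hk.smul (c := g • c) (Finset.mem_image_of_mem _ hc), inv_smul_smul]
  have h2 := (eqv_smul g).2 (h _ h1 (g⁻¹ • p))
  simpa [smul_smul, mul_assoc] using h2

theorem sp_uN {w : Finset ℚ} {ι : Type} {τ : ι → Nm Pc}
    (h : ∀ g : Gp, Fx w g → ∀ i p, ∃ k, Eqv (g • τ i) (τ k) p) : Sp w (uN τ) := by
  have h1 : Supd Gp {c : Crd | c.blk ∈ w} (uN τ) := supd_uN fun g hg => h g (Fx.of_smul hg)
  intro g hg
  exact h1 g fun c hc => hg.smul hc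

/-! ### automorphisms of the rationals -/

/-- stretching at `a` with factor `k` -/
def str (a k : ℚ) (hk : 0 < k) : ℚ ≃o ℚ :=
  StrictMono.orderIsoOfRightInverse (fun x => if x ≤ a then x else a + (x - a) * k)
    (by
      intro x y hxy
      dsimp only
      split_ifs with h1 h2 h2
      · exact hxy
      · have := mul_pos (sub_pos.2 (not_le.1 h2)) hk
        linarith
      · linarith
      · have := mul_lt_mul_of_pos_right (sub_lt_sub_right hxy a) hk
        linarith)
    (fun x => if x ≤ a then x else a + (x - a) / k)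
    (by
      intro x
      dsimp only
      split_ifs with h1 h2 h2
      · rfl
      · have := div_pos (sub_pos.2 (not_le.1 h1)) hk
        linarith
      · have : (x - a) / k * k = x - a := div_mul_cancel₀ _ hk.ne'
        rw [add_sub_cancel_left, this]
        ring)

theorem str_of_le {a k x : ℚ} (hk : 0 < k) (h : x ≤ a) : str a k hk x = x := by
  show (if x ≤ a then x else a + (x - a) * k) = x
  rw [if_pos h]

theorem str_of_ge {a k x : ℚ} (hk : 0 < k) (h : a ≤ x) : str a k hk x = a + (x - a) * k := by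
  show (if x ≤ a then x else a + (x - a) * k) = _
  split_ifs with h1
  · have : x = a := le_antisymm h1 h
    rw [this]; ring
  · rfl

theorem exists_auto_of {c d a a' : ℚ} (hc : c < a) (hc' : c < a') (hd : a < d) (hd' : a' < d) :
    ∃ σ : ℚ ≃o ℚ, σ a = a' ∧ ∀ x, x ≤ c ∨ d ≤ x → σ x = x := by
  have h1 : 0 < (a' - c) / (a - c) := div_pos (sub_pos.2 hc') (sub_pos.2 hc)
  have h2 : 0 < (d - a') / (d - a) := div_pos (sub_pos.2 hd') (sub_pos.2 hd)
  have h3 : 0 < (d - a') / (d - a) / ((a' - c) / (a - c)) := div_pos h2 h1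
  have h4 : 0 < 1 / ((d - a') / (d - a)) := div_pos one_pos h2
  have ha : str c _ h1 a = a' := by
    rw [str_of_ge h1 hc.le, mul_div_cancel₀]
    · ring
    · exact (sub_pos.2 hc).ne'
  have hx : ∀ x, a ≤ x → str a' _ h3 (str c _ h1 x) = a' + (x - a) * ((d - a') / (d - a)) := by
    intro x hx
    have e0 : a' ≤ str c _ h1 x := ha.symm.le.trans ((str c _ h1).monotone hx)
    rw [str_of_ge h3 e0, str_of_ge h1 (hc.le.trans hx)]
    have e1 : (a' - c) / (a - c) ≠ 0 := h1.ne'
    have e2 : c + (x - c) * ((a' - c) / (a - c)) - a' = (x - a) * ((a' - c) / (a - c)) := by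
      have e3 : (a - c) * ((a' - c) / (a - c)) = a' - c := mul_div_cancel₀ _ (sub_pos.2 hc).ne'
      linear_combination e3
    rw [e2, mul_assoc, mul_div_cancel₀ _ e1]
  refine ⟨str d _ h4 * (str a' _ h3 * str c _ h1), ?_, ?_⟩
  · show str d _ h4 (str a' _ h3 (str c _ h1 a)) = a'
    rw [hx a le_rfl, str_of_le h4]
    · ring
    · linarith
  · rintro x (h | h)
    · show str d _ h4 (str a' _ h3 (str c _ h1 x)) = x
      rw [str_of_le h1 h, str_of_le h3 (h.trans hc'.le), str_of_le h4 (h.trans (hc.le.trans hd.le))]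
    · show str d _ h4 (str a' _ h3 (str c _ h1 x)) = x
      rw [hx x (hd.le.trans h)]
      have e1 : (d - a') / (d - a) ≠ 0 := h2.ne'
      have e4 : (d - a) * ((d - a') / (d - a)) = d - a' := mul_div_cancel₀ _ (sub_pos.2 hd).ne'
      have e2 : a' + (x - a) * ((d - a') / (d - a)) = d + (x - d) * ((d - a') / (d - a)) := by
        linear_combination e4
      have e5 : 0 ≤ (x - d) * ((d - a') / (d - a)) := mul_nonneg (sub_nonneg.2 h) h2.le
      rw [e2, str_of_ge h4 (by linarith), add_sub_cancel_left, mul_assoc,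
        mul_one_div_cancel e1]
      ring

/-- a point on the left of `a` and `a'` and on the right of the elements of `F` on the left of
`a` and `a'` -/
theorem exists_left (F : Finset ℚ) (a a' : ℚ) :
    ∃ c, c < a ∧ c < a' ∧ ∀ f ∈ F, f < a → f < a' → f ≤ c := by
  classical
  induction F using Finset.induction_on with
  | empty => exact ⟨min a a' - 1, by linarith [min_le_left a a'], by linarith [min_le_right a a'],
      by simp⟩
  | insert f F _ ih =>
    obtain ⟨c, h1, h2, h3⟩ := ih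
    by_cases h : f < a ∧ f < a'
    · refine ⟨max f c, max_lt h.1 h1, max_lt h.2 h2, fun f' hf' h4 h5 => ?_⟩
      rcases Finset.mem_insert.1 hf' with rfl | hf'
      · exact le_max_left _ _
      · exact (h3 f' hf' h4 h5).trans (le_max_right _ _)
    · refine ⟨c, h1, h2, fun f' hf' h4 h5 => ?_⟩
      rcases Finset.mem_insert.1 hf' with rfl | hf'
      · exact absurd ⟨h4, h5⟩ h
      · exact h3 f' hf' h4 h5

theorem exists_right (F : Finset ℚ) (a a' : ℚ) :
    ∃ c, a < c ∧ a' < c ∧ ∀ f ∈ F, a < f → a' < f → c ≤ f := by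
  classical
  induction F using Finset.induction_on with
  | empty => exact ⟨max a a' + 1, by linarith [le_max_left a a'], by linarith [le_max_right a a'],
      by simp⟩
  | insert f F _ ih =>
    obtain ⟨c, h1, h2, h3⟩ := ih
    by_cases h : a < f ∧ a' < f
    · refine ⟨min f c, lt_min h.1 h1, lt_min h.2 h2, fun f' hf' h4 h5 => ?_⟩
      rcases Finset.mem_insert.1 hf' with rfl | hf'
      · exact min_le_left _ _
      · exact (min_le_right _ _).trans (h3 f' hf' h4 h5)
    · refine ⟨c, h1, h2, fun f' hf' h4 h5 => ?_⟩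
      rcases Finset.mem_insert.1 hf' with rfl | hf'
      · exact absurd ⟨h4, h5⟩ h
      · exact h3 f' hf' h4 h5

/-- `a` and `a'` are in the same interval of the complement of `F` -/
def SameI (F : Finset ℚ) (a a' : ℚ) : Prop := ∀ f ∈ F, (f < a ∧ f < a') ∨ (a < f ∧ a' < f)

theorem exists_auto {F : Finset ℚ} {a a' : ℚ} (h : SameI F a a') :
    ∃ σ : ℚ ≃o ℚ, σ a = a' ∧ ∀ f ∈ F, σ f = f := by
  obtain ⟨c, hc, hc', h1⟩ := exists_left F a a'
  obtain ⟨d, hd, hd', h2⟩ := exists_right F a a'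
  obtain ⟨σ, h3, h4⟩ := exists_auto_of hc hc' hd hd'
  refine ⟨σ, h3, fun f hf => h4 f ?_⟩
  rcases h f hf with ⟨h5, h6⟩ | ⟨h5, h6⟩
  · exact Or.inl (h1 f hf h5 h6)
  · exact Or.inr (h2 f hf h5 h6)

theorem SameI.mono {F F' : Finset ℚ} {a a' : ℚ} (h : SameI F a a') (hF : F' ⊆ F) :
    SameI F' a a' := fun f hf => h f (hF hf)

theorem SameI.symm {F : Finset ℚ} {a a' : ℚ} (h : SameI F a a') : SameI F a' a := by
  intro f hf
  rcases h f hf with h | h
  · exact Or.inl h.symm
  · exact Or.inr h.symm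

theorem SameI.trans {F : Finset ℚ} {a b c : ℚ} (h : SameI F a b) (h' : SameI F b c) :
    SameI F a c := by
  intro f hf
  rcases h f hf with ⟨h1, h2⟩ | ⟨h1, h2⟩
  · rcases h' f hf with ⟨h3, h4⟩ | ⟨h3, h4⟩
    · exact Or.inl ⟨h1, h4⟩
    · exact absurd (h2.trans h3) (lt_irrefl _)
  · rcases h' f hf with ⟨h3, h4⟩ | ⟨h3, h4⟩
    · exact absurd (h2.trans h3) (lt_irrefl _)
    · exact Or.inr ⟨h1, h4⟩

/-! ### inner moves -/

/-- moving a bounded set of levels away from itself -/
def shf (B : ℕ) : Equiv.Perm ℕ :=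
  Function.Involutive.toPerm (fun m : ℕ => if m < B then m + B else
      if m < 2 * B then m - B else m) (by
    intro m
    dsimp only
    split_ifs <;> omega)

theorem shf_lt {B m : ℕ} (h : m < B) : B ≤ shf B m := by
  show B ≤ (if m < B then m + B else _)
  rw [if_pos h]
  omega

/-- the inner move, exchanging the halves if `s` holds -/
def imv (B : ℕ) (s : Bool) : InG :=
  ⟨Equiv.prodCongr ⟨fun i => xor i s, fun i => xor i s, fun i => by cases i <;> cases s <;> rfl,
      fun i => by cases i <;> cases s <;> rfl⟩ (shf B), by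
    intro x y
    show xor x.1 s = xor y.1 s ↔ _
    cases x.1 <;> cases y.1 <;> cases s <;> simp⟩

theorem imv_fst (B : ℕ) (s : Bool) (x : Inn) : ((imv B s).1 x).1 = xor x.1 s := rfl
theorem imv_snd (B : ℕ) (s : Bool) (x : Inn) : ((imv B s).1 x).2 = shf B x.2 := rfl

/-- the levels of a condition are bounded -/
theorem exists_lev (p : Pc) : ∃ B, ∀ c n, p.f c n ≠ none → c.inn.2 < B := by
  obtain ⟨B, hB⟩ := (p.fin.image (fun x => x.1.inn.2)).bddAbove
  refine ⟨B + 1, fun c n h => ?_⟩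
  have := hB ⟨(c, n), h, rfl⟩
  exact Nat.lt_succ_of_le this

/-- the blocks of a condition -/
theorem exists_blks (p : Pc) : ∃ w : Finset ℚ, ∀ c n, p.f c n ≠ none → c.blk ∈ w := by
  classical
  refine ⟨(p.fin.image (fun x => x.1.blk)).toFinset, fun c n h => ?_⟩
  rw [Set.Finite.mem_toFinset]
  exact ⟨(c, n), h, rfl⟩

theorem cpt_smul_iff {g : Gp} {p q : Pc} :
    Coh.Cpt q (g • p) ↔ ∀ c n b b', q.f (g • c) n = some b → p.f c n = some b' → b = b' := by
  constructor
  · intro h c n b b' h1 h2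
    exact h (g • c) n b b' h1 (by rw [Coh.smul_f, inv_smul_smul, h2])
  · intro h c n b b' h1 h2
    rw [Coh.smul_f] at h2
    exact h (g⁻¹ • c) n b b' (by rw [smul_inv_smul, h1]) h2

end Pool.Agent.Helper73.INS
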