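import Pool.Agent.Helper73.INS.Group

/-!
The intersection of two supports of an object is a support.
-/

namespace Pool.Agent.Helper73.INS

open Pool.Agent.Helper73.Sym

/-- below `q` the name `y` equals a name with support `w` -/
def Lc (w : Finset ℚ) (y : Nm Pc) (q : Pc) : Prop := ∃ z, HS Gp z ∧ Sp w z ∧ Eqv y z q

theorem Lc.mono {w w' : Finset ℚ} {y : Nm Pc} {q q' : Pc} (h : Lc w y q) (hw : w ⊆ w')
    (hq : q' ≤ q) : Lc w' y q' := by
  obtain ⟨z, h1, h2, h3⟩ := h
  exact ⟨z, h1, h2.mono hw, h3.mono hq⟩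

theorem Lc.congr {w : Finset ℚ} {y y' : Nm Pc} {q : Pc} (h : Lc w y q) (he : Eqv y y' q) :
    Lc w y' q := by
  obtain ⟨z, h1, h2, h3⟩ := h
  exact ⟨z, h1, h2, he.symm.trans h3⟩

theorem Lc.smul {w : Finset ℚ} {y : Nm Pc} {q : Pc} (h : Lc w y q) (g : Gp) :
    Lc (w.image g.σ) (g • y) (g • q) := by
  obtain ⟨z, h1, h2, h3⟩ := h
  exact ⟨g • z, h1.smul g, h2.smul g, (eqv_smul g).2 h3⟩

open Classical in
/-- restriction of a condition to the blocks in `w` -/
noncomputable def res (w : Finset ℚ) (q : Pc) : Pc :=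
  ⟨fun c n => if c.blk ∈ w then q.f c n else none, by
    refine q.fin.subset ?_
    rintro ⟨c, n⟩ h
    simp only [ne_eq, Set.mem_ofPred_eq] at h ⊢
    intro h1
    apply h
    rw [h1, ite_self]⟩

theorem res_f {w : Finset ℚ} {q : Pc} {c : Crd} {n : ℕ} {b : Bool} :
    (res w q).f c n = some b ↔ c.blk ∈ w ∧ q.f c n = some b := by
  classical
  show (if c.blk ∈ w then q.f c n else none) = some b ↔ _
  split_ifs with h
  · exact ⟨fun h1 => ⟨h, h1⟩, fun h1 => h1.2⟩
  · exact ⟨fun h1 => absurd h1 (by simp), fun h1 => absurd h1.1 h⟩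

theorem le_res (w : Finset ℚ) (q : Pc) : q ≤ res w q := fun _ _ _ h => (res_f.1 h).2

theorem exists_uni3 {p q r : Pc} (h1 : Coh.Cpt p q) (h2 : Coh.Cpt p r) (h3 : Coh.Cpt q r) :
    ∃ s, s ≤ p ∧ s ≤ q ∧ s ≤ r := by
  have h4 : Coh.Cpt p (Coh.uni q r) := by
    intro c n b b' hb hb'
    have e : (q.f c n).or (r.f c n) = some b' := hb'
    rcases h : q.f c n with _ | b''
    · rw [h] at e
      exact h2 c n b b' hb e
    · rw [h] at e
      have e' : b'' = b' := Option.some_injective _ e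
      exact h1 c n b b' hb (by rw [h, e'])
  exact ⟨Coh.uni p (Coh.uni q r), Coh.uni_le_left _ _,
    (Coh.uni_le_right h4).trans (Coh.uni_le_left _ _),
    (Coh.uni_le_right h4).trans (Coh.uni_le_right h3)⟩

theorem sameI_of_fx {w : Finset ℚ} {h : Gp} (hh : Fx w h) {r : ℚ} (hr : ¬ r ∈ w) :
    SameI w r (h.σ r) := by
  intro f hf
  rcases lt_trichotomy f r with h1 | h1 | h1
  · left
    refine ⟨h1, ?_⟩
    have := h.σ.strictMono h1
    rwa [(hh f hf).1] at this
  · rw [h1] at hf; exact absurd hf hr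
  · right
    refine ⟨h1, ?_⟩
    have := h.σ.strictMono h1
    rwa [(hh f hf).1] at this

theorem exists_near (F : Finset ℚ) (r r1 : ℚ) (h : r ≠ r1) : ∃ r', ¬ r' ∈ F ∧ r' ≠ r ∧
    SameI (F.erase r) r r' ∧ ((r < r1 ∧ r < r') ∨ (r1 < r ∧ r' < r)) := by
  rcases lt_or_gt_of_ne h with h1 | h1
  · obtain ⟨c, h2, _, h3⟩ := exists_right F r r
    have h4 : r < (r + c) / 2 := by linarith
    have h5 : (r + c) / 2 < c := by linarith
    refine ⟨(r + c) / 2, ?_, h4.ne', ?_, Or.inl ⟨h1, h4⟩⟩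
    · intro hf
      have := h3 _ hf h4 h4
      linarith
    · intro f hf
      rw [Finset.mem_erase] at hf
      rcases lt_or_gt_of_ne hf.1 with h6 | h6
      · exact Or.inl ⟨h6, h6.trans h4⟩
      · exact Or.inr ⟨h6, h5.trans_le (h3 f hf.2 h6 h6)⟩
  · obtain ⟨c, h2, _, h3⟩ := exists_left F r r
    have h4 : (r + c) / 2 < r := by linarith
    have h5 : c < (r + c) / 2 := by linarith
    refine ⟨(r + c) / 2, ?_, h4.ne, ?_, Or.inr ⟨h1, h4⟩⟩
    · intro hf
      have := h3 _ hf h4 h4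
      linarith
    · intro f hf
      rw [Finset.mem_erase] at hf
      rcases lt_or_gt_of_ne hf.1 with h6 | h6
      · exact Or.inl ⟨h6, (h3 f hf.2 h6 h6).trans_lt h5⟩
      · exact Or.inr ⟨h6, h4.trans h6⟩

theorem Eqv.exists_ne {x y : Nm Pc} {p : Pc} (h : ¬ Eqv x y p) :
    ∃ q ≤ p, ∀ r ≤ q, ¬ Eqv x y r := by
  by_contra hc
  push Not at hc
  exact h (Eqv.dense hc)

section

variable {w w' : Finset ℚ} {r : ℚ} {z z' : Nm Pc} {q : Pc}

theorem inter_aux (hr : ¬ r ∈ w) (hr' : ¬ r ∈ w') (hz : Sp (insert r w) z) (hz' : Sp w' z')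
    (he : Eqv z z' q) {h : Gp} (hh : Fx w h) (hne : h.σ r ≠ r) {q1 : Pc}
    (hq1 : q1 ≤ res (insert r w) q) (hq1' : q1 ≤ h • res (insert r w) q) :
    Eqv (h • z) z q1 := by
  classical
  by_contra hcon
  obtain ⟨q2, hq2, hno⟩ := Eqv.exists_ne hcon
  obtain ⟨B1, hB1⟩ := exists_lev q
  obtain ⟨B2, hB2⟩ := exists_lev q2
  obtain ⟨W1, hW1⟩ := exists_blks q
  obtain ⟨r', h1, h2, h3, h4⟩ := exists_near (w ∪ w' ∪ W1) r (h.σ r) hne.symm
  have hrww : ¬ r ∈ w ∪ w' := by rw [Finset.mem_union]; tauto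
  have h5 : SameI (w ∪ w') r r' := by
    refine h3.mono fun f hf => Finset.mem_erase.2 ⟨?_, Finset.mem_union_left _ hf⟩
    rintro rfl
    exact hrww hf
  have h6 : SameI (insert r w) (h.σ r) r' := by
    intro f hf
    rcases Finset.mem_insert.1 hf with rfl | hf
    · rcases h4 with h4 | h4
      · exact Or.inl h4
      · exact Or.inr h4
    · exact (sameI_of_fx hh hr).symm.trans (h5.mono Finset.subset_union_left) f hf
  have hr'W1 : ¬ r' ∈ W1 := fun hc => h1 (Finset.mem_union_right _ hc)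
  -- the first move
  obtain ⟨σm, hσm, hσm'⟩ := exists_auto h6
  set m : Gp := ⟨σm, fun b => if b ∈ insert r w then 1 else imv (max B1 B2) false⟩ with hm
  have hmF : Fx (insert r w) m := fun b hb => ⟨hσm' b hb, if_pos hb⟩
  have hmlev : ∀ c : Crd, ¬ c.blk ∈ insert r w → c.inn.2 < max B1 B2 →
      max B1 B2 ≤ (m • c).inn.2 := by
    intro c hc hl
    have : (m.π c.blk) = imv (max B1 B2) false := if_neg hc
    rw [smul_inn, this, imv_snd]
    exact shf_lt hl
  -- the second move
  obtain ⟨σk, hσk, hσk'⟩ := exists_auto h5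
  obtain ⟨B3, hB3⟩ := exists_lev (m • q2)
  set k : Gp := ⟨σk, fun b => if b = r then (m * h).π r else
    if b ∈ w ∪ w' then 1 else imv (max B1 B3) false⟩ with hk
  have hkF : Fx (w ∪ w') k := by
    intro b hb
    refine ⟨hσk' b hb, ?_⟩
    have : b ≠ r := by rintro rfl; exact hrww hb
    show (if b = r then (m * h).π r else if b ∈ w ∪ w' then 1 else imv (max B1 B3) false) = 1
    rw [if_neg this, if_pos hb]
  have hklev : ∀ c : Crd, ¬ c.blk ∈ w ∪ w' → c.blk ≠ r → c.inn.2 < max B1 B3 →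
      max B1 B3 ≤ (k • c).inn.2 := by
    intro c hc hcr hl
    have : (k.π c.blk) = imv (max B1 B3) false := by
      show (if c.blk = r then (m * h).π r else if c.blk ∈ w ∪ w' then 1
        else imv (max B1 B3) false) = _
      rw [if_neg hcr, if_neg hc]
    rw [smul_inn, this, imv_snd]
    exact shf_lt hl
  have hkr : ∀ c : Crd, c.blk = r → k • c = m • (h • c) := by
    intro c hc
    rw [← mul_smul]
    ext1
    · rw [smul_blk, smul_blk, hc]
      exact hσk.trans hσm.symm
    · rw [smul_inn, smul_inn, hc]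
      have : k.π r = (m * h).π r := if_pos rfl
      rw [this]
  have hkmh : Fx (insert r w) (k⁻¹ * (m * h)) := by
    apply Fx.of_smul
    intro c hc
    rw [mul_smul, inv_smul_eq_iff, mul_smul]
    rcases Finset.mem_insert.1 hc with hc | hc
    · exact (hkr c hc).symm
    · rw [hh.smul hc, hmF.smul (Finset.mem_insert_of_mem hc),
        hkF.smul (Finset.mem_union_left _ hc)]
  have e1 : ∀ p, Eqv (m • (h • z)) (k • z) p := by
    intro p
    have := (eqv_smul k).2 (hz _ hkmh (k⁻¹ • p))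
    rwa [smul_smul, mul_inv_cancel_left, smul_inv_smul, mul_smul] at this
  have e2 : Eqv (k • z) z' (k • q) :=
    ((eqv_smul k).2 he).trans (hz' k (hkF.mono Finset.subset_union_right) _)
  -- compatibility
  have c1 : Coh.Cpt q (k • q) := by
    rw [cpt_smul_iff]
    intro c n b b' hb hb'
    by_cases hc : c.blk ∈ w ∪ w'
    · rw [hkF.smul hc, hb'] at hb
      exact (Option.some_injective _ hb).symm
    · exfalso
      by_cases hcr : c.blk = r
      · apply hr'W1
        have := hW1 (k • c) n (by rw [hb]; simp)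
        rwa [smul_blk, hcr, show k.σ r = r' from hσk] at this
      · have e3 := hklev c hc hcr ((hB1 c n (by rw [hb']; simp)).trans_le (le_max_left _ _))
        have e4 := hB1 (k • c) n (by rw [hb]; simp)
        have := le_max_left B1 B3
        omega
  have c2 : Coh.Cpt q (m • q2) := by
    rw [cpt_smul_iff]
    intro c n b b' hb hb'
    by_cases hc : c.blk ∈ insert r w
    · rw [hmF.smul hc] at hb
      have := hq1 c n b (res_f.2 ⟨hc, hb⟩)
      have := hq2 c n b this
      rw [hb'] at this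
      exact (Option.some_injective _ this).symm
    · exfalso
      have e3 := hmlev c hc ((hB2 c n (by rw [hb']; simp)).trans_le (le_max_right _ _))
      have e4 := hB1 (m • c) n (by rw [hb]; simp)
      have := le_max_left B1 B2
      omega
  have c3 : Coh.Cpt (m • q2) (k • q) := by
    rw [cpt_smul_iff]
    intro c n b b' hb hb'
    by_cases hcr : c.blk = r
    · rw [hkr c hcr, Coh.smul_f, inv_smul_smul] at hb
      have e3 : (h • res (insert r w) q).f (h • c) n = some b' := by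
        rw [Coh.smul_f, inv_smul_smul]
        exact res_f.2 ⟨by rw [hcr]; exact Finset.mem_insert_self _ _, hb'⟩
      have e4 := hq2 _ _ _ (hq1' _ _ _ e3)
      rw [hb] at e4
      exact Option.some_injective _ e4
    · by_cases hc : c.blk ∈ w ∪ w'
      · rw [hkF.smul hc, Coh.smul_f] at hb
        have e5 : m • (m⁻¹ • c) = c := smul_inv_smul _ _
        generalize m⁻¹ • c = c' at hb e5
        by_cases hc' : c'.blk ∈ insert r w
        · rw [hmF.smul hc'] at e5
          rw [e5] at hb hc'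
          have := hq2 _ _ _ (hq1 c n b' (res_f.2 ⟨hc', hb'⟩))
          rw [hb] at this
          exact Option.some_injective _ this
        · exfalso
          have e3 := hmlev c' hc' ((hB2 c' n (by rw [hb]; simp)).trans_le (le_max_right _ _))
          rw [e5] at e3
          have e4 := hB1 c n (by rw [hb']; simp)
          have := le_max_left B1 B2
          omega
      · exfalso
        have e3 := hklev c hc hcr ((hB1 c n (by rw [hb']; simp)).trans_le (le_max_left _ _))
        have e4 := hB3 (k • c) n (by rw [hb]; simp)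
        have := le_max_right B1 B3
        omega
  obtain ⟨s, s1, s2, s3⟩ := exists_uni3 c1 c2 (fun c n b b' h h' => (c3 c n b' b h' h).symm)
  have e6 : Eqv (m • (h • z)) z s :=
    (e1 s).trans ((e2.mono s2).trans (he.mono s1).symm)
  have e7 : Eqv (m • (h • z)) (m • z) s := e6.trans (hz m hmF s).symm
  have e8 := (eqv_smul m⁻¹).2 e7
  rw [inv_smul_smul, inv_smul_smul] at e8
  exact hno _ ((smul_le_iff' m).1 s3) e8

theorem inter_aux' (hr : ¬ r ∈ w) (hr' : ¬ r ∈ w') (hz : Sp (insert r w) z) (hz' : Sp w' z')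
    (he : Eqv z z' q) {h : Gp} (hh : Fx w h) {q1 : Pc}
    (hq1 : q1 ≤ res (insert r w) q) (hq1' : q1 ≤ h • res (insert r w) q) :
    Eqv (h • z) z q1 := by
  classical
  by_cases hne : h.σ r ≠ r
  · exact inter_aux hr hr' hz hz' he hh hne hq1 hq1'
  push Not at hne
  by_contra hcon
  obtain ⟨q2, hq2, hno⟩ := Eqv.exists_ne hcon
  obtain ⟨W, hW⟩ := exists_blks q2
  obtain ⟨r2, h1, h2, h3, _⟩ := exists_near (w ∪ W) r (r + 1) (by linarith)
  have h4 : SameI w r r2 := by
    refine h3.mono fun f hf => Finset.mem_erase.2 ⟨?_, Finset.mem_union_left _ hf⟩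
    rintro rfl
    exact hr hf
  obtain ⟨σ, hσ, hσ'⟩ := exists_auto h4
  set k : Gp := ⟨σ, fun _ => 1⟩ with hk
  have hkF : Fx w k := fun b hb => ⟨hσ' b hb, rfl⟩
  have c1 : Coh.Cpt q2 (k • res (insert r w) q) := by
    rw [cpt_smul_iff]
    intro c n b b' hb hb'
    have hc := (res_f.1 hb').1
    rcases Finset.mem_insert.1 hc with hc | hc
    · exfalso
      apply h1
      have := hW (k • c) n (by rw [hb]; simp)
      rw [smul_blk, hc, show k.σ r = r2 from hσ] at this
      exact Finset.mem_union_right _ this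
    · rw [hkF.smul hc, hq2 _ _ _ (hq1 _ _ _ hb')] at hb
      exact (Option.some_injective _ hb).symm
  set q3 := Coh.uni q2 (k • res (insert r w) q) with hq3
  have h5 : q3 ≤ q2 := Coh.uni_le_left _ _
  have h6 : q3 ≤ k • res (insert r w) q := Coh.uni_le_right c1
  have e1 : Eqv (k • z) z q3 := inter_aux hr hr' hz hz' he hkF (by
    rw [show k.σ r = r2 from hσ]; exact h2) ((h5.trans hq2).trans hq1) h6
  have e2 : Eqv ((h⁻¹ * k) • z) z (h⁻¹ • q3) := by
    refine inter_aux hr hr' hz hz' he (hh.inv.mul hkF) ?_ ?_ ?_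
    · rw [mul_σ, show k.σ r = r2 from hσ]
      intro hc
      apply h2
      have := congrArg h.σ hc
      rwa [σ_inv_σ, hne] at this
    · exact (smul_le_iff' h).1 ((h5.trans hq2).trans hq1')
    · rw [mul_smul]
      exact SymSys.smul_mono _ h6
  have e3 := (eqv_smul h).2 e2
  rw [smul_inv_smul, mul_smul, smul_inv_smul] at e3
  exact hno q3 h5 (e3.symm.trans e1)

/-- the name of the common value of the translates of `z` -/
def amb (w : Finset ℚ) (z : Nm Pc) (q0 : Pc) : Nm Pc :=
  .mk {a : Gp × z.Ix × Pc // Fx w a.1 ∧ a.2.2 ≤ a.1 • z.wt a.2.1 ∧ a.2.2 ≤ a.1 • q0}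
    (fun a => a.1.1 • z.ch a.1.2.1) (fun a => a.1.2.2)

theorem sp_amb (z : Nm Pc) (q0 : Pc) : Sp w (amb w z q0) := by
  intro g hg p
  rw [eqv_iff]
  constructor
  · rintro ⟨⟨h, i, s⟩, h1, h2, h3⟩ q' _ hq'
    refine ⟨q', le_rfl, ⟨⟨g * h, i, g • s⟩, hg.mul h1, ?_, ?_⟩, hq', ?_⟩
    · rw [mul_smul]; exact SymSys.smul_mono g h2
    · rw [mul_smul]; exact SymSys.smul_mono g h3
    · show Eqv (g • h • z.ch i) ((g * h) • z.ch i) q'
      rw [mul_smul]
      exact Eqv.refl _ _
  · rintro ⟨⟨h, i, s⟩, h1, h2, h3⟩ q' _ hq'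
    refine ⟨q', le_rfl, ⟨⟨g⁻¹ * h, i, g⁻¹ • s⟩, hg.inv.mul h1, ?_, ?_⟩, ?_, ?_⟩
    · rw [mul_smul]; exact SymSys.smul_mono g⁻¹ h2
    · rw [mul_smul]; exact SymSys.smul_mono g⁻¹ h3
    · show q' ≤ g • (g⁻¹ • s)
      rw [smul_inv_smul]; exact hq'
    · show Eqv (g • ((g⁻¹ * h) • z.ch i)) (h • z.ch i) q'
      rw [mul_smul, smul_inv_smul]
      exact Eqv.refl _ _

theorem hs_amb (hz : HS Gp z) (q0 : Pc) : HS Gp (amb w z q0) :=
  HS.intro (symm_iff_sp.2 ⟨w, sp_amb z q0⟩) fun a => (hz.ch _).smul _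

theorem lc_erase {y : Nm Pc} (h : Lc (insert r w) y q) (h' : Lc w' y q)
    (hr : ¬ r ∈ w) (hr' : ¬ r ∈ w') : Lc w y q := by
  obtain ⟨z, hz, hzs, hyz⟩ := h
  obtain ⟨z', _, hzs', hyz'⟩ := h'
  have he : Eqv z z' q := hyz.symm.trans hyz'
  refine ⟨amb w z (res (insert r w) q), hs_amb hz _, sp_amb _ _, hyz.trans ?_⟩
  rw [eqv_iff_children]
  constructor
  · intro i q1 hq1 hi
    have h1 : Fx w 1 := fun b _ => ⟨rfl, rfl⟩
    have := Mm.child (amb w z (res (insert r w) q))
      ⟨⟨1, i, q1⟩, h1, by rw [one_smul]; exact hi, by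
        rw [one_smul]; exact hq1.trans (le_res _ _)⟩ (p := q1) le_rfl
    have e : (amb w z (res (insert r w) q)).ch ⟨⟨1, i, q1⟩, h1, by rw [one_smul]; exact hi, by
        rw [one_smul]; exact hq1.trans (le_res _ _)⟩ = z.ch i := one_smul _ _
    rwa [e] at this
  · rintro ⟨⟨g, i, s⟩, h1, h2, h3⟩ q1 hq1 hs
    have hs : q1 ≤ s := hs
    have h2 : s ≤ g • z.wt i := h2
    have h3 : s ≤ g • res (insert r w) q := h3
    have e1 : Eqv (g • z) z q1 := inter_aux' hr hr' hzs hzs' he h1
      (hq1.trans (le_res _ _)) (hs.trans h3)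
    have e2 : Mm (g • z.ch i) (g • z) q1 := by
      have := Mm.child z i (p := g⁻¹ • q1) ((smul_le_iff' g).1 (hs.trans h2))
      have := (mm_smul g).2 this
      rwa [smul_inv_smul] at this
    exact Mm.congr_right e1 e2

theorem lc_inter {w1 w2 : Finset ℚ} {y : Nm Pc} (h1 : Lc w1 y q) (h2 : Lc w2 y q) :
    Lc (w1 ∩ w2) y q := by
  classical
  have key : ∀ t : Finset ℚ, t ⊆ w1 \ w2 → Lc (w1 \ t) y q := by
    intro t
    induction t using Finset.induction_on with
    | empty => intro _; simpa using h1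
    | insert r t hrt ih =>
      intro ht
      have hr : r ∈ w1 \ w2 := ht (Finset.mem_insert_self _ _)
      rw [Finset.mem_sdiff] at hr
      have h3 := ih fun x hx => ht (Finset.mem_insert_of_mem hx)
      have e : w1 \ t = insert r (w1 \ insert r t) := by
        ext x
        simp only [Finset.mem_sdiff, Finset.mem_insert]
        by_cases hx : x = r
        · subst hx; tauto
        · tauto
      rw [e] at h3
      refine lc_erase h3 h2 ?_ hr.2
      simp
  have := key (w1 \ w2) subset_rfl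
  rwa [Finset.sdiff_sdiff_self_left] at this

end

end Pool.Agent.Helper73.INS
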