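import Pool.Agent.Helper73.INS.Chain
import Pool.Agent.Helper73.Sym.Ctb

/-!
The set of blocks in the model: no choice set, and only finitely many definable classes of
subsets modulo finite sets.
-/

namespace Pool.Agent.Helper73.INS

open Pool.Agent.Helper73.Sym

set_option synthInstance.maxSize 2000

/-! ### formulas -/

/-- `z = {x, y}` -/
def isUp (z x y : ℕ) : Fml := .all (.iff (.mem 0 (z + 1)) (.or (.eq 0 (x + 1)) (.eq 0 (y + 1))))

/-- `z = (x, y)` -/
def isOp (z x y : ℕ) : Fml :=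
  .all (.iff (.mem 0 (z + 1)) (.or (isUp 0 (x + 1) (x + 1)) (isUp 0 (x + 1) (y + 1))))

theorem sat_isUp {M : Type*} [Membership M M] [IsZF M] (z x y : ℕ) (v : ℕ → M) :
    Sat (isUp z x y) v ↔ v z = upair (v x) (v y) := by
  simp only [isUp, sat_all, sat_iff, sat_mem, sat_or, sat_eq, cons_zero, cons_succ]
  exact ⟨fun h => mext fun w => by rw [h, mem_upair], fun h w => by rw [h, mem_upair]⟩

theorem sat_isOp {M : Type*} [Membership M M] [IsZF M] (z x y : ℕ) (v : ℕ → M) :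
    Sat (isOp z x y) v ↔ v z = op (v x) (v y) := by
  simp only [isOp, sat_all, sat_iff, sat_mem, sat_or, sat_isUp, cons_zero, cons_succ]
  exact ⟨fun h => mext fun w => by rw [h, op, mem_upair], fun h w => by rw [h, op, mem_upair]⟩

/-- Tarski finiteness -/
def TFin {M : Type*} [Membership M M] (Y : M) : Prop :=
  ∀ F : M, (∃ Z : M, Z ∈ F) → (∀ Z : M, Z ∈ F → ∀ u : M, u ∈ Z → u ∈ Y) →
    ∃ Z : M, Z ∈ F ∧ ∀ Z' : M, Z' ∈ F → (∀ u : M, u ∈ Z → u ∈ Z') → ∀ u : M, u ∈ Z' → u ∈ Z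

/-- Tarski finiteness as a formula -/
def tfin (i : ℕ) : Fml :=
  .all (.imp (.ex (.mem 0 1)) (.imp
    (.all (.imp (.mem 0 1) (.all (.imp (.mem 0 1) (.mem 0 (i + 3))))))
    (.ex (.and (.mem 0 1) (.all (.imp (.mem 0 2)
      (.imp (.all (.imp (.mem 0 2) (.mem 0 1))) (.all (.imp (.mem 0 1) (.mem 0 2))))))))))

theorem sat_tfin {M : Type*} [Membership M M] (i : ℕ) (v : ℕ → M) :
    Sat (tfin i) v ↔ TFin (v i) := by
  simp only [tfin, TFin, sat_all, sat_imp, sat_ex, sat_and, sat_mem, cons_zero, cons_succ]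

theorem tfin_iff {M : Type*} [Membership M M] [StdZF M] (Y : M) :
    TFin Y ↔ {z | z ∈ Y}.Finite := by
  constructor
  · intro h
    by_contra hinf
    obtain ⟨Z, hZ, h1⟩ := h (sep (pw Y) (fun Z => IsFin Z))
      ⟨emp, by
        rw [mem_sep, mem_pw, isFin_iff]
        refine ⟨fun z hz => absurd hz (mem_emp z), ?_⟩
        refine Set.finite_empty.subset fun z hz => absurd hz (mem_emp z)⟩
      (fun Z hZ u hu => (mem_pw _ _).1 ((mem_sep _ _ _).1 hZ).1 u hu)
    rw [mem_sep, mem_pw] at hZ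
    have hf := (isFin_iff Z).1 hZ.2
    obtain ⟨u, hu, hu'⟩ : ∃ u, u ∈ Y ∧ ¬ u ∈ Z := by
      by_contra hc
      push Not at hc
      exact hinf (hf.subset fun z hz => hc z hz)
    have h2 := h1 (un2 Z (upair u u)) (by
      rw [mem_sep, mem_pw, isFin_iff]
      constructor
      · intro z hz
        rcases (mem_un2 _ _ _).1 hz with hz | hz
        · exact hZ.1 z hz
        · rw [mem_upair, or_self] at hz
          rw [hz]; exact hu
      · refine (hf.union (Set.finite_singleton u)).subset fun z hz => ?_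
        rcases (mem_un2 _ _ _).1 hz with hz | hz
        · exact Or.inl hz
        · rw [mem_upair, or_self] at hz
          exact Or.inr hz) (fun z hz => (mem_un2 _ _ _).2 (Or.inl hz)) u
      ((mem_un2 _ _ _).2 (Or.inr (by simp)))
    exact hu' h2
  · intro h F ⟨Z0, hZ0⟩ hF
    classical
    have hsub : ∀ Z, Z ∈ F → {u | u ∈ Z} ⊆ {u | u ∈ Y} := fun Z hZ u hu => hF Z hZ u hu
    have hb : ∀ Z, Z ∈ F → Set.ncard {u | u ∈ Z} ≤ Set.ncard {u | u ∈ Y} := fun Z hZ =>
      Set.ncard_le_ncard (hsub Z hZ) h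
    obtain ⟨N, ⟨Z, hZ, hN⟩, hmax⟩ : ∃ N, (∃ Z, Z ∈ F ∧ Set.ncard {u | u ∈ Z} = N) ∧
        ∀ N', (∃ Z, Z ∈ F ∧ Set.ncard {u | u ∈ Z} = N') → N' ≤ N := by
      have hex : ∃ N, ∃ Z, Z ∈ F ∧ Set.ncard {u | u ∈ Z} = N := ⟨_, Z0, hZ0, rfl⟩
      refine ⟨Nat.findGreatest (fun N => ∃ Z, Z ∈ F ∧ Set.ncard {u | u ∈ Z} = N)
        (Set.ncard {u | u ∈ Y}), ?_, ?_⟩
      · obtain ⟨N, hN⟩ := hex
        refine Nat.findGreatest_spec
          (P := fun N => ∃ Z, Z ∈ F ∧ Set.ncard {u | u ∈ Z} = N) (m := N) ?_ hN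
        obtain ⟨Z, hZ, rfl⟩ := hN
        exact hb Z hZ
      · intro N' hN'
        refine Nat.le_findGreatest ?_ hN'
        obtain ⟨Z, hZ, rfl⟩ := hN'
        exact hb Z hZ
    refine ⟨Z, hZ, fun Z' hZ' hZZ' u hu => ?_⟩
    have h1 : Set.ncard {u | u ∈ Z'} ≤ Set.ncard {u | u ∈ Z} := by
      rw [hN]; exact hmax _ ⟨Z', hZ', rfl⟩
    have h2 : {u | u ∈ Z} = {u | u ∈ Z'} :=
      Set.eq_of_subset_of_ncard_le (fun u hu => hZZ' u hu) h1 (h.subset (hsub Z' hZ'))
    have h3 : u ∈ {u | u ∈ Z} := by rw [h2]; exact hu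
    exact h3

/-- `v 2` is a member of the value of `v 0` at `v 1` -/
def fmC : Fml := .ex (.and (.ex (.and (.mem 0 2) (isOp 0 3 1))) (.mem 3 0))

theorem sat_fmC {M : Type*} [Membership M M] [IsZF M] (v : ℕ → M) :
    Sat fmC v ↔ ∃ C : M, op (v 1) C ∈ v 0 ∧ v 2 ∈ C := by
  simp only [fmC, sat_ex, sat_and, sat_mem, sat_isOp, cons_zero, cons_succ]
  refine exists_congr fun C => and_congr ?_ Iff.rfl
  constructor
  · rintro ⟨z, hz, rfl⟩; exact hz
  · intro h; exact ⟨_, h, rfl⟩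

/-- the members of the values of `v 0` at `v 1` have finite differences -/
def fmD : Fml :=
  .all (.all (.all (.all (.all (.imp (.ex (.and (.mem 0 6) (isOp 0 7 5)))
    (.imp (.ex (.and (.mem 0 6) (isOp 0 7 4))) (.imp (.mem 2 4) (.imp (.mem 1 3)
      (.imp (.all (.imp (.mem 0 1) (.and (.mem 0 3) (.not (.mem 0 2))))) (tfin 0))))))))))

theorem sat_fmD {M : Type*} [Membership M M] [IsZF M] (v : ℕ → M) :
    Sat fmD v ↔ ∀ C C' S S' Y : M, op (v 1) C ∈ v 0 → op (v 1) C' ∈ v 0 → S ∈ C → S' ∈ C' →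
      (∀ z : M, z ∈ Y → z ∈ S ∧ ¬ z ∈ S') → TFin Y := by
  simp only [fmD, sat_all, sat_imp, sat_ex, sat_and, sat_mem, sat_isOp, sat_not, sat_tfin,
    cons_zero, cons_succ]
  refine forall_congr' fun C => forall_congr' fun C' => forall_congr' fun S =>
    forall_congr' fun S' => forall_congr' fun Y => imp_congr ?_ (imp_congr ?_ Iff.rfl)
  · constructor
    · rintro ⟨z, hz, rfl⟩; exact hz
    · intro h; exact ⟨_, h, rfl⟩
  · constructor
    · rintro ⟨z, hz, rfl⟩; exact hz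
    · intro h; exact ⟨_, h, rfl⟩

/-! ### the blocks -/

/-- the name of a half of a block -/
noncomputable def dN (b : ℚ) (i : Bool) : Nm Pc := uN (fun m : ℕ => rN (⟨b, (i, m)⟩ : Crd))

/-- the name of a block -/
noncomputable def TN (b : ℚ) : Nm Pc := upN (dN b true) (dN b false)

/-- the name of the set of blocks -/
noncomputable def AN : Nm Pc := uN (fun b : ℚ => TN b)

theorem inG_fst (f : InG) (i : Bool) (m : ℕ) : (f.1 (i, m)).1 = (f.1 (i, 0)).1 :=
  (f.2 _ _).2 rfl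

theorem smul_dN (g : Gp) (b : ℚ) (i : Bool) (p : Pc) :
    Eqv (g • dN b i) (dN (g.σ b) ((g.π b).1 (i, 0)).1) p := by
  rw [dN, smul_uN]
  refine eqv_uN ?_ ?_
  · intro m
    refine ⟨((g.π b).1 (i, m)).2, ?_⟩
    rw [smul_rN]
    have : g • (⟨b, (i, m)⟩ : Crd) = ⟨g.σ b, (((g.π b).1 (i, 0)).1, ((g.π b).1 (i, m)).2)⟩ := by
      rw [← inG_fst (g.π b) i m]
      rfl
    rw [this]
    exact Eqv.refl _ _
  · intro m
    have h1 : ((g.π b).1 ((g.π b).1⁻¹ (((g.π b).1 (i, 0)).1, m))) =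
        (((g.π b).1 (i, 0)).1, m) := by simp
    generalize (g.π b).1⁻¹ (((g.π b).1 (i, 0)).1, m) = x at h1
    have h2 : x.1 = i := by
      have := ((g.π b).2 x (i, 0)).1 (by rw [h1])
      exact this
    refine ⟨x.2, ?_⟩
    rw [smul_rN]
    have : g • (⟨b, (i, x.2)⟩ : Crd) = ⟨g.σ b, (((g.π b).1 (i, 0)).1, m)⟩ := by
      rw [← h1, ← h2]
      rfl
    rw [this]
    exact Eqv.refl _ _

theorem smul_TN (g : Gp) (b : ℚ) (p : Pc) : Eqv (g • TN b) (TN (g.σ b)) p := by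
  have hne : ((g.π b).1 (true, 0)).1 ≠ ((g.π b).1 (false, 0)).1 := by
    intro h
    have := ((g.π b).2 (true, 0) (false, 0)).1 h
    simp at this
  have h1 := smul_dN g b true p
  have h2 := smul_dN g b false p
  rw [TN, smul_upN]
  rcases h : ((g.π b).1 (true, 0)).1 with _ | _
  · rw [h] at h1 hne
    have h3 : ((g.π b).1 (false, 0)).1 = true := by
      cases h4 : ((g.π b).1 (false, 0)).1
      · exact absurd h4.symm hne
      · rfl
    rw [h3] at h2
    refine eqv_uN ?_ ?_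
    · intro i
      cases i
      · exact ⟨true, h2⟩
      · exact ⟨false, h1⟩
    · intro i
      cases i
      · exact ⟨true, h1⟩
      · exact ⟨false, h2⟩
  · rw [h] at h1 hne
    have h3 : ((g.π b).1 (false, 0)).1 = false := by
      cases h4 : ((g.π b).1 (false, 0)).1
      · rfl
      · exact absurd h4.symm hne
    rw [h3] at h2
    exact eqv_upN h1 h2

theorem sp_dN (b : ℚ) (i : Bool) : Sp {b} (dN b i) := by
  intro g hg p
  have h := hg b (Finset.mem_singleton_self b)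
  have := smul_dN g b i p
  rw [h.1, h.2] at this
  exact this

theorem hs_dN (b : ℚ) (i : Bool) : HS Gp (dN b i) :=
  HS.intro (symm_iff_sp.2 ⟨_, sp_dN b i⟩) fun m => hs_rN _

theorem hs_TN (b : ℚ) : HS Gp (TN b) := hs_upN (hs_dN b _) (hs_dN b _)

theorem hs_AN : HS Gp AN :=
  HS.intro (symm_iff_sp.2 ⟨∅, sp_uN fun g _ b p => ⟨g.σ b, smul_TN g b p⟩⟩) fun b => hs_TN b

/-! ### the generic models -/

/-- codes of the names we need -/
abbrev Cd := Crd ⊕ ((ℚ × Bool) ⊕ (ℚ ⊕ Unit))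

noncomputable def stdN : Cd → Nm Pc
  | .inl c => rN c
  | .inr (.inl x) => dN x.1 x.2
  | .inr (.inr (.inl b)) => TN b
  | .inr (.inr (.inr _)) => AN

theorem hs_stdN (k : Cd) : HS Gp (stdN k) := by
  rcases k with c | x | b | _
  · exact hs_rN c
  · exact hs_dN _ _
  · exact hs_TN b
  · exact hs_AN

structure Good (D : Gen Pc Gp) : Prop where
  sep : D.Sep
  std : ∀ k, D.Has (stdN k)

section

variable {D : Gen Pc Gp} (hD : Good D)

include hD

theorem Good.r (c : Crd) : D.Has (rN c) := hD.std (.inl c)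
theorem Good.d (b : ℚ) (i : Bool) : D.Has (dN b i) := hD.std (.inr (.inl (b, i)))
theorem Good.t (b : ℚ) : D.Has (TN b) := hD.std (.inr (.inr (.inl b)))
theorem Good.a : D.Has AN := hD.std (.inr (.inr (.inr ())))

theorem mem_d (b : ℚ) (i : Bool) (z : D.M) :
    z ∈ D.ev (dN b i) ↔ ∃ m, z = D.ev (rN (⟨b, (i, m)⟩ : Crd)) :=
  Gen.mem_ev_uN (hD.d b i) (fun _ => hD.r _) z

theorem ev_t (b : ℚ) : D.ev (TN b) = upair (D.ev (dN b true)) (D.ev (dN b false)) :=
  Gen.ev_upN (hD.t b) (hD.d _ _) (hD.d _ _)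

theorem mem_a (z : D.M) : z ∈ D.ev AN ↔ ∃ b, z = D.ev (TN b) :=
  Gen.mem_ev_uN hD.a (fun _ => hD.t _) z

theorem d_inj {b b' : ℚ} {i i' : Bool} (h : D.ev (dN b i) = D.ev (dN b' i')) :
    b = b' ∧ i = i' := by
  have h1 : D.ev (rN (⟨b, (i, 0)⟩ : Crd)) ∈ D.ev (dN b i) := (mem_d hD b i _).2 ⟨0, rfl⟩
  rw [h, mem_d hD] at h1
  obtain ⟨m, hm⟩ := h1
  rw [Gen.ev_rN_inj hD.sep (hD.r _) (hD.r _)] at hm
  have e1 := congrArg Crd.blk hm
  have e2 := congrArg Prod.fst (congrArg Crd.inn hm)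
  exact ⟨e1, e2⟩

theorem t_inj {b b' : ℚ} (h : D.ev (TN b) = D.ev (TN b')) : b = b' := by
  have h1 : D.ev (dN b true) ∈ D.ev (TN b) := by rw [ev_t hD]; simp
  rw [h, ev_t hD, mem_upair] at h1
  rcases h1 with h1 | h1
  · exact (d_inj hD h1).1
  · exact (d_inj hD h1).1

theorem a_pairs {P : D.M} (hP : P ∈ D.ev AN) : ∃ x y, x ≠ y ∧ P = upair x y := by
  obtain ⟨b, rfl⟩ := (mem_a hD P).1 hP
  refine ⟨_, _, ?_, ev_t hD b⟩
  intro h
  have := (d_inj hD h).2
  simp at this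

theorem a_disj {P P' z : D.M} (hP : P ∈ D.ev AN) (hP' : P' ∈ D.ev AN) (hz : z ∈ P)
    (hz' : z ∈ P') : P = P' := by
  obtain ⟨b, rfl⟩ := (mem_a hD P).1 hP
  obtain ⟨b', rfl⟩ := (mem_a hD P').1 hP'
  rw [ev_t hD, mem_upair] at hz hz'
  have : b = b' := by
    rcases hz with rfl | rfl <;> rcases hz' with h | h <;> exact (d_inj hD h).1
  rw [this]

theorem a_inf : ¬ IsFin (D.ev AN) := by
  rw [isFin_iff]
  intro h
  have h1 : (Set.univ : Set ℚ).Finite := by
    refine Set.Finite.of_injOn (f := fun b => D.ev (TN b)) (t := {z | z ∈ D.ev AN}) ?_ ?_ h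
    · intro b _
      exact (mem_a hD _).2 ⟨b, rfl⟩
    · intro b _ b' _ h
      exact t_inj hD h
  exact Set.infinite_univ h1

/-- there is no choice set for the set of blocks -/
theorem no_choice : ¬ ∃ C : D.M, ∀ P : D.M, P ∈ D.ev AN → ∃! x : D.M, x ∈ P ∧ x ∈ C := by
  classical
  rintro ⟨C, hC⟩
  obtain ⟨c, hc, rfl⟩ := Gen.ev_surj C
  obtain ⟨e, he⟩ := symm_iff_sp.1 hc.hs.symm'
  obtain ⟨b, hb⟩ := Infinite.exists_notMem_finset e
  obtain ⟨i, h1, h2⟩ : ∃ i, D.ev (dN b i) ∈ D.ev c ∧ ¬ D.ev (dN b (xor i true)) ∈ D.ev c := by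
    obtain ⟨x, ⟨hx, hxc⟩, hu⟩ := hC _ ((mem_a hD _).2 ⟨b, rfl⟩)
    have hall : ∀ i, D.ev (dN b i) ∈ D.ev (TN b) := by
      intro i
      rw [ev_t hD, mem_upair]
      cases i
      · exact Or.inr rfl
      · exact Or.inl rfl
    obtain ⟨i, rfl⟩ : ∃ i, x = D.ev (dN b i) := by
      rw [ev_t hD, mem_upair] at hx
      rcases hx with h | h
      · exact ⟨_, h⟩
      · exact ⟨_, h⟩
    refine ⟨i, hxc, fun h => ?_⟩
    have := (d_inj hD (hu _ ⟨hall _, h⟩)).2
    cases i <;> simp at this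
  obtain ⟨n1, h3⟩ := (Gen.ev_mem (hD.d b i) hc).1 h1
  obtain ⟨n2, h4⟩ : ∃ n, ∀ r ≤ D.g n, ¬ Mm (dN b (xor i true)) c r := by
    have hv : ∀ n, D.Has (val3 (dN b (xor i true)) c c n) := by
      intro n
      rcases n with _ | _ | n
      · exact hD.d _ _
      · exact hc
      · exact hc
    have : Sat (Fml.not (.mem 0 1)) (fun n => D.ev (val3 (dN b (xor i true)) c c n)) := by
      rw [sat_not, sat_mem]
      exact h2
    rw [Gen.truth_ev _ _ hv] at this
    obtain ⟨n, hn⟩ := this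
    exact ⟨n, fun r hr => hn r hr⟩
  have h3 := h3.mono (D.anti (le_max_left n1 n2))
  have h4 : ∀ r ≤ D.g (max n1 n2), ¬ Mm (dN b (xor i true)) c r :=
    fun r hr => h4 r (hr.trans (D.anti (le_max_right _ _)))
  generalize D.g (max n1 n2) = p at h3 h4
  obtain ⟨B, hB⟩ := exists_lev p
  set h : Gp := ⟨1, fun b' => if b' = b then imv B true else 1⟩ with hh
  have hb1 : h.π b = imv B true := if_pos rfl
  have hF : Fx e h := by
    intro b' hb'
    refine ⟨rfl, if_neg ?_⟩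
    rintro rfl
    exact hb hb'
  have hcp : Coh.Cpt p (h • p) := by
    rw [cpt_smul_iff]
    intro c' n x x' hx hx'
    by_cases hcb : c'.blk = b
    · exfalso
      have e1 := hB c' n (by rw [hx']; simp)
      have e2 := hB (h • c') n (by rw [hx]; simp)
      rw [smul_inn, hcb, hb1, imv_snd] at e2
      have := shf_lt e1
      omega
    · have e1 : h • c' = c' := by
        ext1
        · rfl
        · rw [smul_inn]
          have : h.π c'.blk = 1 := if_neg hcb
          rw [this]; rfl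
      rw [e1, hx'] at hx
      exact (Option.some_injective _ hx).symm
  have h5 := (mm_smul h).2 h3
  have h6 := smul_dN h b i (Coh.uni p (h • p))
  have e3 : ((h.π b).1 (i, 0)).1 = xor i true := by rw [hb1]; rfl
  rw [e3] at h6
  have h7 : Mm (dN b (xor i true)) c (Coh.uni p (h • p)) :=
    Mm.congr_left h6 (Mm.congr_right (he h hF _) (h5.mono (Coh.uni_le_right hcp)))
  exact h4 _ (Coh.uni_le_left _ _) h7

omit hD in
theorem exists_not_mem {x y : Nm Pc} (hx : D.Has x) (hy : D.Has y) (h : ¬ D.ev x ∈ D.ev y) :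
    ∃ n, ∀ r ≤ D.g n, ¬ Mm x y r := by
  have hv : ∀ n, D.Has (val3 x y y n) := by
    intro n
    rcases n with _ | _ | n
    · exact hx
    · exact hy
    · exact hy
  have : Sat (Fml.not (.mem 0 1)) (fun n => D.ev (val3 x y y n)) := by
    rw [sat_not, sat_mem]
    exact h
  rw [Gen.truth_ev _ _ hv] at this
  obtain ⟨n, hn⟩ := this
  exact ⟨n, fun r hr => hn r hr⟩

omit hD in
/-- a move compatible with a condition -/
theorem exists_mv (e : Finset ℚ) {a b : ℚ} (h : SameI e a b) (p : Pc) :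
    ∃ g : Gp, Fx e g ∧ g.σ a = b ∧ Coh.Cpt p (g • p) := by
  classical
  obtain ⟨σ, h1, h2⟩ := exists_auto h
  obtain ⟨B, hB⟩ := exists_lev p
  refine ⟨⟨σ, fun b' => if b' ∈ e then 1 else imv B false⟩, fun b' hb' => ⟨h2 b' hb', if_pos hb'⟩,
    h1, ?_⟩
  have hF : Fx e ⟨σ, fun b' => if b' ∈ e then 1 else imv B false⟩ :=
    fun b' hb' => ⟨h2 b' hb', if_pos hb'⟩
  rw [cpt_smul_iff]
  intro c n x x' hx hx'
  by_cases hce : c.blk ∈ e
  · rw [hF.smul hce, hx'] at hx
    exact (Option.some_injective _ hx).symm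
  · exfalso
    have e1 := hB c n (by rw [hx']; simp)
    have e2 := hB _ n (by rw [hx]; simp)
    have e3 : (if c.blk ∈ e then 1 else imv B false) = imv B false := if_neg hce
    rw [smul_inn] at e2
    change ((if c.blk ∈ e then (1 : InG) else imv B false).1 c.inn).2 < B at e2
    rw [e3, imv_snd] at e2
    have := shf_lt e1
    omega

/-- membership of blocks in a set with support `e` is constant on the intervals of `e` -/
theorem const_aux {e : Finset ℚ} {t : Nm Pc} (ht : D.Has t) (hs : Sp e t) {a b : ℚ}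
    (hab : SameI e a b) (ha : D.ev (TN a) ∈ D.ev t) : D.ev (TN b) ∈ D.ev t := by
  by_contra hb
  obtain ⟨n1, h3⟩ := (Gen.ev_mem (hD.t a) ht).1 ha
  obtain ⟨n2, h4⟩ := exists_not_mem (hD.t b) ht hb
  have h3 := h3.mono (D.anti (le_max_left n1 n2))
  have h4 : ∀ r ≤ D.g (max n1 n2), ¬ Mm (TN b) t r :=
    fun r hr => h4 r (hr.trans (D.anti (le_max_right _ _)))
  generalize D.g (max n1 n2) = p at h3 h4
  obtain ⟨g, hg1, hg2, hcp⟩ := exists_mv e hab p
  have h5 := (mm_smul g).2 h3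
  have h6 := smul_TN g a (Coh.uni p (g • p))
  rw [hg2] at h6
  exact h4 _ (Coh.uni_le_left _ _)
    (Mm.congr_left h6 (Mm.congr_right (hs g hg1 _) (h5.mono (Coh.uni_le_right hcp))))

theorem const_iff {e : Finset ℚ} {t : Nm Pc} (ht : D.Has t) (hs : Sp e t) {a b : ℚ}
    (hab : SameI e a b) : D.ev (TN a) ∈ D.ev t ↔ D.ev (TN b) ∈ D.ev t :=
  ⟨const_aux hD ht hs hab, const_aux hD ht hs hab.symm⟩

end

theorem infinite_sameI (F : Finset ℚ) (b : ℚ) (hb : ¬ b ∈ F) : {b' | SameI F b b'}.Infinite := by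
  obtain ⟨c, h1, _, h2⟩ := exists_right F b b
  refine (Set.Ioo_infinite h1).mono fun b' hb' => ?_
  intro f hf
  rcases lt_trichotomy f b with h | h | h
  · exact Or.inl ⟨h, h.trans hb'.1⟩
  · rw [h] at hf; exact absurd hf hb
  · exact Or.inr ⟨h, hb'.2.trans_le (h2 f hf h h)⟩

section

variable {D : Gen Pc Gp} (hD : Good D)

include hD

/-- membership of blocks in a set whose class modulo finite sets has support `e` -/
theorem const_class {e e' : Finset ℚ} (hee : e ⊆ e') {s t : Nm Pc} (hs : D.Has s)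
    (ht : D.Has t) (hse : Sp e s) (hte : Sp e' t) {k : ℕ} {a b : ℚ}
    (hC : Sat fmC (fun n => D.ev (val3 s (natN k) t n)))
    (hDf : Sat fmD (fun n => D.ev (val3 s (natN k) t n)))
    (hab : SameI e a b) (hae : ¬ a ∈ e') (hbe : ¬ b ∈ e')
    (ha : D.ev (TN a) ∈ D.ev t) : D.ev (TN b) ∈ D.ev t := by
  classical
  by_contra hb
  have hv : ∀ n, D.Has (val3 s (natN k) t n) := by
    intro n
    rcases n with _ | _ | n
    · exact hs
    · exact Gen.has_nat k
    · exact ht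
  obtain ⟨n1, h1⟩ := (Gen.ev_mem (hD.t a) ht).1 ha
  obtain ⟨n2, h2⟩ := exists_not_mem (hD.t b) ht hb
  obtain ⟨n3, h3⟩ := (Gen.truth_ev _ _ hv).1 hC
  obtain ⟨n4, h4⟩ := (Gen.truth_ev _ _ hv).1 hDf
  obtain ⟨N, hN1, hN2, hN3, hN4⟩ : ∃ N, n1 ≤ N ∧ n2 ≤ N ∧ n3 ≤ N ∧ n4 ≤ N :=
    ⟨n1 + n2 + n3 + n4, by omega, by omega, by omega, by omega⟩
  have h1 := h1.mono (D.anti hN1)
  have h2 : ∀ r ≤ D.g N, ¬ Mm (TN b) t r := fun r hr => h2 r (hr.trans (D.anti hN2))
  have h3 := h3.mono (D.anti hN3)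
  have h4 := h4.mono (D.anti hN4)
  generalize D.g N = p at h1 h2 h3 h4
  obtain ⟨g, hg1, hg2, hcp⟩ := exists_mv e hab p
  have hqp : Coh.uni p (g • p) ≤ p := Coh.uni_le_left _ _
  have hqg : Coh.uni p (g • p) ≤ g • p := Coh.uni_le_right hcp
  generalize Coh.uni p (g • p) = q at hqp hqg
  have e1 := (mm_smul g).2 h1
  have e2 : Mm (TN b) (g • t) q := by
    have h6 := smul_TN g a q
    rw [hg2] at h6
    exact Mm.congr_left h6 (e1.mono hqg)
  have e3 : Frc Gp fmC (val3 s (natN k) (g • t)) q := by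
    have h5 := (frc_smul g).2 h3
    refine Frc.congr (v := fun n => g • val3 s (natN k) t n) ?_ (h5.mono hqg)
    intro n
    rcases n with _ | _ | n
    · exact hse g hg1 q
    · show Eqv (g • natN k) (natN k) q
      rw [natN_smul]
      exact Eqv.refl _ _
    · exact Eqv.refl _ _
  -- the new model
  obtain ⟨D', h0, _, hall, hsep⟩ := exists_gen_sep (G := Gp) q
    (fun k : Cd ⊕ Fin 3 => match k with
      | .inl k => stdN k
      | .inr 0 => s
      | .inr 1 => t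
      | .inr 2 => g • t) (by
      rintro (k | i)
      · exact hs_stdN k
      · fin_cases i
        · exact hs.hs
        · exact ht.hs
        · exact ht.hs.smul g)
  have hD' : Good D' := ⟨hsep, fun k => hall (.inl k)⟩
  have hs' : D'.Has s := hall (.inr 0)
  have ht' : D'.Has t := hall (.inr 1)
  have hgt' : D'.Has (g • t) := hall (.inr 2)
  have hv' : ∀ n, D'.Has (val3 s (natN k) t n) := by
    intro n
    rcases n with _ | _ | n
    · exact hs'
    · exact Gen.has_nat k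
    · exact ht'
  have hv'' : ∀ n, D'.Has (val3 s (natN k) (g • t) n) := by
    intro n
    rcases n with _ | _ | n
    · exact hs'
    · exact Gen.has_nat k
    · exact hgt'
  have f1 := (Gen.truth_ev _ _ hv').2 ⟨0, by rw [h0]; exact h3.mono hqp⟩
  have f2 := (Gen.truth_ev _ _ hv'').2 ⟨0, by rw [h0]; exact e3⟩
  have f3 := (Gen.truth_ev _ _ hv').2 ⟨0, by rw [h0]; exact h4.mono hqp⟩
  have f4 : D'.ev (TN b) ∈ D'.ev (g • t) := by
    rw [Gen.ev_mem (hD'.t b) hgt']
    exact ⟨0, by rw [h0]; exact e2⟩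
  have f5 : ¬ D'.ev (TN b) ∈ D'.ev t := by
    rw [Gen.ev_mem (hD'.t b) ht']
    rintro ⟨n, hn⟩
    refine h2 _ ?_ hn
    have := D'.anti (Nat.zero_le n)
    rw [h0] at this
    exact this.trans hqp
  rw [ev_val3, sat_fmC] at f1 f2
  rw [ev_val3, sat_fmD] at f3
  obtain ⟨C, hC1, hC2⟩ := f1
  obtain ⟨C', hC1', hC2'⟩ := f2
  have f6 : TFin (df (D'.ev (g • t)) (D'.ev t)) :=
    f3 C' C (D'.ev (g • t)) (D'.ev t) _ hC1' hC1 hC2' hC2 fun z hz => (mem_df _ _ _).1 hz
  rw [tfin_iff] at f6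
  have hbF : ¬ b ∈ e' ∪ e'.image g.σ := by
    rw [Finset.mem_union, not_or]
    refine ⟨hbe, fun h => ?_⟩
    obtain ⟨a', ha', h5⟩ := Finset.mem_image.1 h
    rw [← hg2] at h5
    rw [g.σ.injective h5] at ha'
    exact hae ha'
  refine infinite_sameI _ b hbF (Set.Finite.of_injOn (f := fun b' => D'.ev (TN b'))
    (t := {z | z ∈ df (D'.ev (g • t)) (D'.ev t)}) ?_ ?_ f6)
  · intro b' hb'
    show D'.ev (TN b') ∈ df (D'.ev (g • t)) (D'.ev t)
    rw [mem_df]
    have hb' : SameI (e' ∪ e'.image g.σ) b b' := hb'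
    refine ⟨(const_iff hD' hgt' (hte.smul g) (hb'.mono Finset.subset_union_right)).1 f4,
      fun h => f5 ((const_iff hD' ht' hte (hb'.mono Finset.subset_union_left)).2 h)⟩
  · intro b1 _ b2 _ h
    exact t_inj hD' h

/-- there is no injective sequence of classes of subsets of the set of blocks modulo finite
sets -/
theorem no_classes : ¬ ∃ s : D.M, Fn s om (pw (pw (D.ev AN))) ∧
    (∀ n m : ℕ, n ≠ m → ap s (nat n) ≠ ap s (nat m)) ∧
    ∀ n : ℕ, ∃ S : D.M, Sub S (D.ev AN) ∧ ∀ S' : D.M, S' ∈ ap s (nat n) ↔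
      Sub S' (D.ev AN) ∧ IsFin (df S S') ∧ IsFin (df S' S) := by
  classical
  rintro ⟨s, hs, hinj, hcl⟩
  obtain ⟨s, hsH, rfl⟩ := Gen.ev_surj s
  obtain ⟨e, he⟩ := symm_iff_sp.1 hsH.hs.symm'
  choose S hS1 hS2 using hcl
  choose t htH htS using fun n => Gen.ev_surj (S n)
  have hsup : ∀ n, ∃ e', e ⊆ e' ∧ Sp e' (t n) := by
    intro n
    obtain ⟨e', he'⟩ := symm_iff_sp.1 (htH n).hs.symm'
    exact ⟨e ∪ e', Finset.subset_union_left, he'.mono Finset.subset_union_right⟩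
  choose e' hee' hte' using hsup
  have hself : ∀ n, S n ∈ ap (D.ev s) (nat n) := by
    intro n
    rw [hS2]
    have : IsFin (df (S n) (S n)) := by
      rw [isFin_iff]
      refine Set.finite_empty.subset fun z hz => ?_
      have hz : z ∈ df (S n) (S n) := hz
      have := (mem_df _ _ _).1 hz
      exact absurd this.1 this.2
    exact ⟨hS1 n, this, this⟩
  have hfin2 : ∀ n S' S'', S' ∈ ap (D.ev s) (nat n) → S'' ∈ ap (D.ev s) (nat n) →
      {z | z ∈ S' ∧ ¬ z ∈ S''}.Finite := by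
    intro n S' S'' h1 h2
    have h1 := ((hS2 n S').1 h1).2.2
    have h2 := ((hS2 n S'').1 h2).2.1
    rw [isFin_iff] at h1 h2
    refine (h1.union h2).subset ?_
    rintro z ⟨hz1, hz2⟩
    by_cases h : z ∈ S n
    · exact Or.inr ((mem_df _ _ _).2 ⟨h, hz2⟩)
    · exact Or.inl ((mem_df _ _ _).2 ⟨hz1, h⟩)
  have hconst : ∀ n a b, SameI e a b → ¬ a ∈ e' n → ¬ b ∈ e' n → D.ev (TN a) ∈ S n →
      D.ev (TN b) ∈ S n := by
    intro n a b hab ha hb h
    rw [← htS n] at h ⊢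
    refine const_class hD (hee' n) hsH (htH n) he (hte' n) (k := n) ?_ ?_ hab ha hb h
    · rw [ev_val3, sat_fmC]
      refine ⟨ap (D.ev s) (nat n), ?_, ?_⟩
      · show op (D.ev (natN n)) _ ∈ D.ev s
        rw [Gen.ev_natN]
        exact ap_spec hs (nat_mem_om n)
      · show D.ev (t n) ∈ _
        rw [htS]
        exact hself n
    · rw [ev_val3, sat_fmD]
      intro C C' S' S'' Y hC hC' hS' hS'' hY
      have hC : op (D.ev (natN n)) C ∈ D.ev s := hC
      have hC' : op (D.ev (natN n)) C' ∈ D.ev s := hC'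
      rw [Gen.ev_natN] at hC hC'
      rw [← ap_eq hs hC] at hS'
      rw [← ap_eq hs hC'] at hS''
      rw [tfin_iff]
      exact (hfin2 n S' S'' hS' hS'').subset fun z hz => hY z hz
  -- the pattern of `S n`
  let P : ℕ → (e.powerset → Prop) := fun n κ =>
    ∃ a, ¬ a ∈ e' n ∧ e.filter (fun x => x < a) = κ.1 ∧ D.ev (TN a) ∈ S n
  obtain ⟨n, m, hnm, hP⟩ := Finite.exists_ne_map_eq_of_infinite P
  have hsame : ∀ a b, ¬ a ∈ e → ¬ b ∈ e → e.filter (fun x => x < a) = e.filter (fun x => x < b) →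
      SameI e a b := by
    intro a b ha hb h f hf
    have h1 : f < a ↔ f < b := by
      have := Finset.ext_iff.1 h f
      simp only [Finset.mem_filter, hf, true_and] at this
      exact this
    rcases lt_trichotomy f a with h2 | h2 | h2
    · exact Or.inl ⟨h2, h1.1 h2⟩
    · rw [h2] at hf; exact absurd hf ha
    · refine Or.inr ⟨h2, ?_⟩
      rcases lt_trichotomy f b with h3 | h3 | h3
      · exact absurd (h1.2 h3) (not_lt.2 h2.le)
      · rw [h3] at hf; exact absurd hf hb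
      · exact h3
  have hpat : ∀ n a, ¬ a ∈ e' n → (D.ev (TN a) ∈ S n ↔
      P n ⟨e.filter (fun x => x < a), Finset.mem_powerset.2 (Finset.filter_subset _ _)⟩) := by
    intro n a ha
    constructor
    · intro h
      exact ⟨a, ha, rfl, h⟩
    · rintro ⟨a', ha', h1, h2⟩
      exact hconst n a' a (hsame _ _ (fun h => ha' (hee' n h)) (fun h => ha (hee' n h)) h1)
        ha' ha h2
  have hdiff : ∀ n m, P n = P m → {z | z ∈ S n ∧ ¬ z ∈ S m}.Finite := by
    intro n m hP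
    refine ((e' n ∪ e' m).finite_toSet.image (fun b => D.ev (TN b))).subset ?_
    rintro z ⟨hz1, hz2⟩
    obtain ⟨a, rfl⟩ := (mem_a hD z).1 (hS1 n z hz1)
    refine ⟨a, ?_, rfl⟩
    by_contra ha
    have ha : ¬ a ∈ e' n ∪ e' m := ha
    rw [Finset.mem_union, not_or] at ha
    rw [hpat n a ha.1, hP, ← hpat m a ha.2] at hz1
    exact hz2 hz1
  have d1 := hdiff n m hP
  have d2 := hdiff m n hP.symm
  apply hinj n m hnm
  have key : ∀ n m, {z | z ∈ S n ∧ ¬ z ∈ S m}.Finite → {z | z ∈ S m ∧ ¬ z ∈ S n}.Finite →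
      Sub (ap (D.ev s) (nat n)) (ap (D.ev s) (nat m)) := by
    intro n m d1 d2 S' hS'
    rw [hS2] at hS' ⊢
    obtain ⟨h1, h2, h3⟩ := hS'
    rw [isFin_iff] at h2 h3
    refine ⟨h1, ?_, ?_⟩
    · rw [isFin_iff]
      refine (d2.union h2).subset fun z hz => ?_
      have hz : z ∈ df (S m) S' := hz
      obtain ⟨hz1, hz2⟩ := (mem_df _ _ _).1 hz
      by_cases h : z ∈ S n
      · exact Or.inr ((mem_df _ _ _).2 ⟨h, hz2⟩)
      · exact Or.inl ⟨hz1, h⟩
    · rw [isFin_iff]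
      refine (d1.union h3).subset fun z hz => ?_
      have hz : z ∈ df S' (S m) := hz
      obtain ⟨hz1, hz2⟩ := (mem_df _ _ _).1 hz
      by_cases h : z ∈ S n
      · exact Or.inl ⟨h, hz2⟩
      · exact Or.inr ((mem_df _ _ _).2 ⟨hz1, h⟩)
  exact sub_antisymm (key n m d1 d2) (key m n d2 d1)

end

/-- the operations under which the model is closed -/
noncomputable def opV : ℕ → List (Nm Pc) → Nm Pc := fun b l =>
  match (Encodable.decode (α := Option (Bool × Finset ℚ)) b).getD none with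
  | none => CN (l.getD 0 (natN 0))
  | some (true, w) => chN (l.getD 0 (natN 0)) w
  | some (false, w) => cwN w (l.getD 0 (natN 0))

theorem hs_opV (b : ℕ) (l : List (Nm Pc)) (hl : ∀ x ∈ l, HS Gp x) : HS Gp (opV b l) := by
  have key : HS Gp (l.getD 0 (natN 0) : Nm Pc) := by
    rw [List.getD_eq_getElem?_getD]
    rcases h : l[0]? with _ | x
    · exact natN_hs 0
    · exact hl x (List.mem_of_getElem? h)
  unfold opV
  split
  · exact hs_CN key
  · exact hs_chN key _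
  · exact hs_cwN _ _

/-- the model for MP_2291ab_lc -/
theorem exists_model : ∃ (M : Type) (_ : Membership M M) (_ : StdZF M),
    (∀ x : M, ¬ IsFin x → ∃ C : M, (∀ S, S ∈ C → Sub S x) ∧
      (∀ S S', S ∈ C → S' ∈ C → Sub S S' ∨ Sub S' S) ∧ ¬ IsFin C) ∧
    ∃ A : M, ¬ IsFin A ∧ (∀ P, P ∈ A → ∃ x y, x ≠ y ∧ P = upair x y) ∧
      (∀ P P' z, P ∈ A → P' ∈ A → z ∈ P → z ∈ P' → P = P') ∧
      (¬ ∃ C : M, ∀ P : M, P ∈ A → ∃! x : M, x ∈ P ∧ x ∈ C) ∧
      ¬ ∃ s : M, Fn s om (pw (pw A)) ∧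
        (∀ n m : ℕ, n ≠ m → ap s (nat n) ≠ ap s (nat m)) ∧
        ∀ n : ℕ, ∃ S : M, Sub S A ∧ ∀ S' : M, S' ∈ ap s (nat n) ↔
          Sub S' A ∧ IsFin (df S S') ∧ IsFin (df S' S) := by
  classical
  obtain ⟨e, he⟩ := exists_surjective_nat Cd
  obtain ⟨e', he'⟩ := exists_surjective_nat (Option {x : Crd × Crd // x.1 ≠ x.2})
  obtain ⟨D, _, h2, h3, h4⟩ := exists_gen_ops (G := Gp) (⊤ : Pc) (fun n => stdN (e n))
    (fun n => hs_stdN _)
    (fun n _ => match e' n with
      | none => Set.univ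
      | some x => {p | ∃ n, p.f x.1.1 n = some true ∧ p.f x.1.2 n = some false})
    (fun n x hx p => by
      rcases h : e' n with _ | x
      · exact ⟨p, le_rfl, trivial⟩
      · exact Coh.dense_ne x.1.1 x.1.2 x.2 p) opV hs_opV
  have hD : Good D := by
    constructor
    · intro i j hij
      obtain ⟨n, hn⟩ := he' (some ⟨(i, j), hij⟩)
      obtain ⟨l, hl⟩ := h3 n 0
      rw [hn] at hl
      obtain ⟨k, hk⟩ := hl
      exact ⟨l, k, hk⟩
    · intro k
      obtain ⟨n, rfl⟩ := he k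
      exact h2 n
  have hop : ∀ (x : Nm Pc), D.Has x → ∀ a : Option (Bool × Finset ℚ),
      D.Has (match a with
        | none => CN x
        | some (true, w) => chN x w
        | some (false, w) => cwN w x) := by
    rintro _ ⟨m, rfl⟩ a
    obtain ⟨l, hl⟩ := h4 (Encodable.encode a) [m]
    refine ⟨l, hl.trans ?_⟩
    unfold opV
    rw [Encodable.encodek]
    rfl
  refine ⟨D.M, inferInstance, inferInstance, ?_, D.ev AN, a_inf hD, fun P hP => a_pairs hD hP,
    fun P P' z hP hP' hz hz' => a_disj hD hP hP' hz hz', no_choice hD, no_classes hD⟩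
  intro z hz
  obtain ⟨x, hx, rfl⟩ := Gen.ev_surj z
  exact exists_chain hx (fun w => hop x hx (some (true, w))) (hop x hx none)
    (fun w => hop x hx (some (false, w))) hz

end Pool.Agent.Helper73.INS
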